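import Mathlib

/-! Families of cosets with few linearly independent indicator functions: tools. -/

set_option autoImplicit false

open Finset Module

namespace Pool.Agent.V11160.LR

section Greedy

variable {E : Type} [AddCommGroup E] [Module ℝ E] [FiniteDimensional ℝ E]
variable {α : Type} [DecidableEq α]

/-- the rank of a family of vectors -/
noncomputable def rk (v : α → E) (S : Finset α) : ℕ :=
  finrank ℝ (Submodule.span ℝ (v '' (S : Set α)))

theorem rk_mono (v : α → E) {L S : Finset α} (h : L ⊆ S) : rk v L ≤ rk v S :=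
  Submodule.finrank_mono (Submodule.span_mono (Set.image_mono (by exact_mod_cast h)))

/-- adding a vector on which a functional does not vanish -/
theorem rk_insert (v : α → E) (L : Finset α) (a : α) (ℓ : E →ₗ[ℝ] ℂ)
    (h0 : ∀ b ∈ L, ℓ (v b) = 0) (h1 : ℓ (v a) ≠ 0) : rk v L + 1 ≤ rk v (insert a L) := by
  have hlt : Submodule.span ℝ (v '' (L : Set α)) <
      Submodule.span ℝ (v '' ((insert a L : Finset α) : Set α)) := by
    refine lt_of_le_of_ne (Submodule.span_mono (Set.image_mono (by simp))) ?_
    intro heq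
    have h2 : v a ∈ Submodule.span ℝ (v '' (L : Set α)) := by
      rw [heq]; exact Submodule.subset_span ⟨a, by simp, rfl⟩
    have h3 : Submodule.span ℝ (v '' (L : Set α)) ≤ LinearMap.ker ℓ := by
      rw [Submodule.span_le]
      rintro _ ⟨b, hb, rfl⟩
      exact h0 b hb
    exact h1 (h3 h2)
  exact Submodule.finrank_lt_finrank_of_lt hlt

/-- a small subfamily which covers everything -/
theorem greedy {Θ : Type} (v : α → E) (ℓ : Θ → E →ₗ[ℝ] ℂ) (σ : α → Set Θ)
    (S : Finset α) (hσ : ∀ a ∈ S, ∀ θ, ℓ θ (v a) ≠ 0 ↔ θ ∈ σ a) :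
    ∃ L ⊆ S, L.card ≤ rk v L ∧ ∀ a ∈ S, ∀ θ ∈ σ a, ∃ b ∈ L, θ ∈ σ b := by
  classical
  induction S using Finset.induction_on with
  | empty => exact ⟨∅, Subset.refl _, by simp, by simp⟩
  | insert a S ha ih =>
    obtain ⟨L, hLS, hL, hcov⟩ := ih fun b hb => hσ b (mem_insert_of_mem hb)
    by_cases h : ∀ θ ∈ σ a, ∃ b ∈ L, θ ∈ σ b
    · refine ⟨L, hLS.trans (subset_insert _ _), hL, ?_⟩
      intro b hb
      rcases mem_insert.1 hb with rfl | hb
      · exact h
      · exact hcov b hb
    · push Not at h
      obtain ⟨θ, hθ, hθL⟩ := h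
      refine ⟨insert a L, insert_subset_insert _ hLS, ?_, ?_⟩
      · have h1 := rk_insert v L a (ℓ θ) (by
          intro b hb
          by_contra hne
          exact hθL b hb ((hσ b (mem_insert_of_mem (hLS hb)) θ).1 hne))
          ((hσ a (mem_insert_self _ _) θ).2 hθ)
        exact (card_insert_le _ _).trans (by omega)
      · intro b hb θ' hθ'
        rcases mem_insert.1 hb with rfl | hb
        · exact ⟨b, mem_insert_self _ _, hθ'⟩
        · obtain ⟨b', hb', h'⟩ := hcov b hb θ' hθ'
          exact ⟨b', mem_insert_of_mem hb', h'⟩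

/-- a family of natural numbers in which every vector is new -/
theorem triangular (v : α → E) (rep : ℕ → α) (T : Finset ℕ)
    (h : ∀ a ∈ T, ∃ ℓ : E →ₗ[ℝ] ℂ, ℓ (v (rep a)) ≠ 0 ∧ ∀ b ∈ T, b < a → ℓ (v (rep b)) = 0) :
    T.card ≤ rk v (T.image rep) := by
  classical
  induction T using Finset.induction_on_max with
  | empty => simp
  | insert a T hmax ih =>
    have ih' := ih (by
      intro b hb
      obtain ⟨ℓ, h1, h2⟩ := h b (mem_insert_of_mem hb)
      exact ⟨ℓ, h1, fun c hc hcb => h2 c (mem_insert_of_mem hc) hcb⟩)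
    obtain ⟨ℓ, h1, h2⟩ := h a (mem_insert_self _ _)
    have h3 := rk_insert v (T.image rep) (rep a) ℓ (by
      intro b hb
      obtain ⟨b', hb', rfl⟩ := mem_image.1 hb
      exact h2 b' (mem_insert_of_mem hb') (hmax b' hb')) h1
    rw [image_insert]
    exact (card_insert_le _ _).trans (by omega)

end Greedy

section Gens

/-- A finite group of order less than `2 ^ (k + 1)` is generated by `k` elements. -/
theorem gens {G : Type*} [Group G] [Finite G] (H : Subgroup G) (k : ℕ) :
    ∃ f : Fin k → G, (∀ i, f i ∈ H) ∧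
      (Subgroup.closure (Set.range f) = H ∨ 2 ^ k ≤ Nat.card (Subgroup.closure (Set.range f))) := by
  induction k with
  | zero => exact ⟨Fin.elim0, fun i => i.elim0, Or.inr (by rw [pow_zero]; exact Nat.card_pos)⟩
  | succ k ih =>
    obtain ⟨f, hf, h⟩ := ih
    have hle : Subgroup.closure (Set.range f) ≤ H := by
      rw [Subgroup.closure_le]; rintro _ ⟨i, rfl⟩; exact hf i
    by_cases heq : Subgroup.closure (Set.range f) = H
    · refine ⟨Fin.cons 1 f, ?_, Or.inl ?_⟩
      · intro i
        refine Fin.cases ?_ ?_ i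
        · exact H.one_mem
        · intro i; exact hf i
      · rw [Fin.range_cons, Subgroup.closure_insert_one, heq]
    · obtain ⟨g, hg, hg'⟩ : ∃ g ∈ H, g ∉ Subgroup.closure (Set.range f) := by
        by_contra hcon
        push Not at hcon
        exact heq (le_antisymm hle hcon)
      refine ⟨Fin.cons g f, ?_, Or.inr ?_⟩
      · intro i
        refine Fin.cases ?_ ?_ i
        · exact hg
        · intro i; exact hf i
      · have hle' : Subgroup.closure (Set.range f) ≤
            Subgroup.closure (Set.range (Fin.cons g f : Fin (k + 1) → G)) := by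
          apply Subgroup.closure_mono
          rw [Fin.range_cons]
          exact Set.subset_insert _ _
        have hmem : g ∈ Subgroup.closure (Set.range (Fin.cons g f : Fin (k + 1) → G)) :=
          Subgroup.subset_closure ⟨0, rfl⟩
        obtain ⟨q, hq⟩ := Subgroup.card_dvd_of_le hle'
        have h2 := h.resolve_left heq
        have hpos : 0 < Nat.card (Subgroup.closure (Set.range (Fin.cons g f : Fin (k + 1) → G))) :=
          Nat.card_pos
        have hq2 : 2 ≤ q := by
          by_contra hcon
          have hq1 : q = 0 ∨ q = 1 := by omega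
          rcases hq1 with rfl | rfl
          · rw [mul_zero] at hq; omega
          · rw [mul_one] at hq
            have := Subgroup.eq_of_le_of_card_ge hle' hq.le
            rw [← this] at hmem
            exact hg' hmem
        rw [hq, pow_succ]
        exact Nat.mul_le_mul h2 hq2

theorem gens' {G : Type*} [Group G] [Finite G] (H : Subgroup G) {s : ℕ} (hs : Nat.card H ≤ s) :
    ∃ f : Fin (Nat.log 2 s) → G, (∀ i, f i ∈ H) ∧ Subgroup.closure (Set.range f) = H := by
  obtain ⟨f, hf, h⟩ := gens H (Nat.log 2 s)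
  refine ⟨f, hf, ?_⟩
  by_contra heq
  have hle : Subgroup.closure (Set.range f) ≤ H := by
    rw [Subgroup.closure_le]; rintro _ ⟨i, rfl⟩; exact hf i
  obtain ⟨q, hq⟩ := Subgroup.card_dvd_of_le hle
  have h2 := h.resolve_left heq
  have hpos : 0 < Nat.card H := Nat.card_pos
  have hq2 : 2 ≤ q := by
    by_contra hcon
    have hq1 : q = 0 ∨ q = 1 := by omega
    rcases hq1 with rfl | rfl
    · rw [mul_zero] at hq; omega
    · rw [mul_one] at hq
      exact heq (Subgroup.eq_of_le_of_card_ge hle hq.le)
  have h3 : 2 ^ (Nat.log 2 s + 1) ≤ Nat.card H := by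
    rw [hq, pow_succ]
    exact Nat.mul_le_mul h2 hq2
  have h4 := Nat.lt_pow_succ_log_self (b := 2) (by norm_num) s
  omega

/-- A finite group of order less than `2 ^ (k + 1)` is generated by `k` elements. -/
theorem addgens {G : Type*} [AddGroup G] [Finite G] (H : AddSubgroup G) (k : ℕ) :
    ∃ f : Fin k → G, (∀ i, f i ∈ H) ∧
      (AddSubgroup.closure (Set.range f) = H ∨ 2 ^ k ≤ Nat.card (AddSubgroup.closure (Set.range f))) := by
  induction k with
  | zero => exact ⟨Fin.elim0, fun i => i.elim0, Or.inr (by rw [pow_zero]; exact Nat.card_pos)⟩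
  | succ k ih =>
    obtain ⟨f, hf, h⟩ := ih
    have hle : AddSubgroup.closure (Set.range f) ≤ H := by
      rw [AddSubgroup.closure_le]; rintro _ ⟨i, rfl⟩; exact hf i
    by_cases heq : AddSubgroup.closure (Set.range f) = H
    · refine ⟨Fin.cons 0 f, ?_, Or.inl ?_⟩
      · intro i
        refine Fin.cases ?_ ?_ i
        · exact H.zero_mem
        · intro i; exact hf i
      · rw [Fin.range_cons, AddSubgroup.closure_insert_zero, heq]
    · obtain ⟨g, hg, hg'⟩ : ∃ g ∈ H, g ∉ AddSubgroup.closure (Set.range f) := by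
        by_contra hcon
        push Not at hcon
        exact heq (le_antisymm hle hcon)
      refine ⟨Fin.cons g f, ?_, Or.inr ?_⟩
      · intro i
        refine Fin.cases ?_ ?_ i
        · exact hg
        · intro i; exact hf i
      · have hle' : AddSubgroup.closure (Set.range f) ≤
            AddSubgroup.closure (Set.range (Fin.cons g f : Fin (k + 1) → G)) := by
          apply AddSubgroup.closure_mono
          rw [Fin.range_cons]
          exact Set.subset_insert _ _
        have hmem : g ∈ AddSubgroup.closure (Set.range (Fin.cons g f : Fin (k + 1) → G)) :=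
          AddSubgroup.subset_closure ⟨0, rfl⟩
        obtain ⟨q, hq⟩ := AddSubgroup.card_dvd_of_le hle'
        have h2 := h.resolve_left heq
        have hpos : 0 < Nat.card (AddSubgroup.closure (Set.range (Fin.cons g f : Fin (k + 1) → G))) :=
          Nat.card_pos
        have hq2 : 2 ≤ q := by
          by_contra hcon
          have hq1 : q = 0 ∨ q = 1 := by omega
          rcases hq1 with rfl | rfl
          · rw [mul_zero] at hq; omega
          · rw [mul_one] at hq
            have := AddSubgroup.eq_of_le_of_card_ge hle' hq.le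
            rw [← this] at hmem
            exact hg' hmem
        rw [hq, pow_succ]
        exact Nat.mul_le_mul h2 hq2

theorem addgens' {G : Type*} [AddGroup G] [Finite G] (H : AddSubgroup G) {s : ℕ} (hs : Nat.card H ≤ s) :
    ∃ f : Fin (Nat.log 2 s) → G, (∀ i, f i ∈ H) ∧ AddSubgroup.closure (Set.range f) = H := by
  obtain ⟨f, hf, h⟩ := addgens H (Nat.log 2 s)
  refine ⟨f, hf, ?_⟩
  by_contra heq
  have hle : AddSubgroup.closure (Set.range f) ≤ H := by
    rw [AddSubgroup.closure_le]; rintro _ ⟨i, rfl⟩; exact hf i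
  obtain ⟨q, hq⟩ := AddSubgroup.card_dvd_of_le hle
  have h2 := h.resolve_left heq
  have hpos : 0 < Nat.card H := Nat.card_pos
  have hq2 : 2 ≤ q := by
    by_contra hcon
    have hq1 : q = 0 ∨ q = 1 := by omega
    rcases hq1 with rfl | rfl
    · rw [mul_zero] at hq; omega
    · rw [mul_one] at hq
      exact heq (AddSubgroup.eq_of_le_of_card_ge hle hq.le)
  have h3 : 2 ^ (Nat.log 2 s + 1) ≤ Nat.card H := by
    rw [hq, pow_succ]
    exact Nat.mul_le_mul h2 hq2
  have h4 := Nat.lt_pow_succ_log_self (b := 2) (by norm_num) s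
  omega

end Gens

section Dual

variable {G : Type} [AddCommGroup G] [Fintype G] [DecidableEq G]

/-- the characters which are trivial on `H` -/
def ann (H : AddSubgroup G) : Subgroup (AddChar G ℂ) where
  carrier := {χ | ∀ h ∈ H, χ h = 1}
  mul_mem' := by
    intro χ ψ hχ hψ h hh
    rw [AddChar.mul_apply, hχ h hh, hψ h hh, one_mul]
  one_mem' := by intro h _; rfl
  inv_mem' := by
    intro χ hχ h hh
    rw [AddChar.inv_apply]
    exact hχ _ (H.neg_mem hh)

theorem mem_ann (H : AddSubgroup G) (χ : AddChar G ℂ) : χ ∈ ann H ↔ ∀ h ∈ H, χ h = 1 := Iff.rfl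

theorem ann_sup (H K : AddSubgroup G) : ann (H ⊔ K) = ann H ⊓ ann K := by
  ext χ
  rw [Subgroup.mem_inf, mem_ann, mem_ann, mem_ann]
  constructor
  · intro h
    exact ⟨fun x hx => h x (AddSubgroup.mem_sup_left hx), fun x hx => h x (AddSubgroup.mem_sup_right hx)⟩
  · rintro ⟨h1, h2⟩ x hx
    obtain ⟨y, hy, z, hz, rfl⟩ := AddSubgroup.mem_sup.1 hx
    rw [AddChar.map_add_eq_mul, h1 y hy, h2 z hz, one_mul]

open Classical in
theorem sum_coset (H : AddSubgroup G) (c : G) (χ : AddChar G ℂ) :
    ∑ y ∈ Finset.univ.filter (fun y => y - c ∈ H), χ y =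
      if χ ∈ ann H then ((Finset.univ.filter (fun y => y - c ∈ H)).card : ℂ) * χ c else 0 := by
  split_ifs with hχ
  · rw [Finset.sum_congr rfl (g := fun _ => χ c), Finset.sum_const, nsmul_eq_mul]
    intro y hy
    rw [Finset.mem_filter] at hy
    have : χ y = χ (y - c) * χ c := by rw [← AddChar.map_add_eq_mul, sub_add_cancel]
    rw [this, (mem_ann H χ).1 hχ _ hy.2, one_mul]
  · rw [mem_ann] at hχ
    push Not at hχ
    obtain ⟨h, hh, hne⟩ := hχ
    have h1 : ∑ y ∈ Finset.univ.filter (fun y => y - c ∈ H), χ y =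
        ∑ y ∈ Finset.univ.filter (fun y => y - c ∈ H), χ (y + h) := by
      apply Finset.sum_nbij' (fun y => y - h) (fun y => y + h)
      · intro y hy
        simp only [Finset.mem_filter, Finset.mem_univ, true_and] at hy ⊢
        have : y - h - c = (y - c) - h := by abel
        rw [this]; exact H.sub_mem hy hh
      · intro y hy
        simp only [Finset.mem_filter, Finset.mem_univ, true_and] at hy ⊢
        have : y + h - c = (y - c) + h := by abel
        rw [this]; exact H.add_mem hy hh
      · intro y _; simp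
      · intro y _; simp
      · intro y _; simp
    have h2 : ∑ y ∈ Finset.univ.filter (fun y => y - c ∈ H), χ (y + h) =
        (∑ y ∈ Finset.univ.filter (fun y => y - c ∈ H), χ y) * χ h := by
      rw [Finset.sum_mul]
      exact Finset.sum_congr rfl fun y _ => AddChar.map_add_eq_mul _ _ _
    rw [h2] at h1
    have h3 : (∑ y ∈ Finset.univ.filter (fun y => y - c ∈ H), χ y) * (1 - χ h) = 0 := by
      rw [mul_sub, mul_one, ← h1, sub_self]
    rcases mul_eq_zero.1 h3 with h4 | h4
    · exact h4
    · exact absurd (sub_eq_zero.1 h4).symm hne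

theorem card_ann (H : AddSubgroup G) : Nat.card (ann H) * Nat.card H = Nat.card G := by
  classical
  have h1 : ∑ χ : AddChar G ℂ, ∑ y ∈ Finset.univ.filter (fun y => y - 0 ∈ H), χ y =
      (Nat.card (ann H) : ℂ) * Nat.card H := by
    have h2 : ∀ χ : AddChar G ℂ, ∑ y ∈ Finset.univ.filter (fun y => y - 0 ∈ H), χ y =
        if χ ∈ ann H then (Nat.card H : ℂ) else 0 := by
      intro χ
      rw [sum_coset]
      congr 1
      rw [AddChar.map_zero_eq_one, mul_one]
      congr 1
      rw [Nat.card_eq_fintype_card, Fintype.card_subtype]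
      congr 1
      ext y
      simp
    rw [Finset.sum_congr rfl fun χ _ => h2 χ, ← Finset.sum_filter, Finset.sum_const, nsmul_eq_mul]
    congr 2
    rw [Nat.card_eq_fintype_card, Fintype.card_subtype]
  rw [Finset.sum_comm] at h1
  have h3 : ∑ y ∈ Finset.univ.filter (fun y => y - 0 ∈ H), ∑ χ : AddChar G ℂ, χ y =
      (Nat.card G : ℂ) := by
    rw [Finset.sum_congr rfl fun y _ => AddChar.sum_apply_eq_ite y]
    rw [Finset.sum_ite_eq']
    rw [if_pos]
    · rw [Nat.card_eq_fintype_card]
    · simp [H.zero_mem]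
  rw [h3] at h1
  exact_mod_cast h1.symm

theorem ann_injective {H K : AddSubgroup G} (h : ann H = ann K) : H = K := by
  have h1 : ann (H ⊔ K) = ann H := by rw [ann_sup, h, inf_idem]
  have h2 : ann (H ⊔ K) = ann K := by rw [h1, h]
  have hpos : ∀ L : AddSubgroup G, 0 < Nat.card (ann L) := fun L => Nat.card_pos
  have c0 := card_ann (H ⊔ K)
  have c1 := card_ann H
  have c2 := card_ann K
  rw [h1, ← c1] at c0
  have e1 := Nat.eq_of_mul_eq_mul_left (hpos H) c0
  have c0' := card_ann (H ⊔ K)
  rw [h2, ← c2] at c0'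
  have e2 := Nat.eq_of_mul_eq_mul_left (hpos K) c0'
  have e3 := AddSubgroup.eq_of_le_of_card_ge (le_sup_left : H ≤ H ⊔ K) e1.le
  have e4 := AddSubgroup.eq_of_le_of_card_ge (le_sup_right : K ≤ H ⊔ K) e2.le
  rw [e3, ← e4]

end Dual

end Pool.Agent.V11160.LR
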