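import Pool.Agent.V11160.LR.Basic

/-! Counting cosets whose indicator functions span a space of small dimension. -/

set_option autoImplicit false

open Finset Module

namespace Pool.Agent.V11160.LR

variable {G : Type} [AddCommGroup G] [Fintype G] [DecidableEq G]

/-- `C` is a coset -/
def IsCoset (C : Finset G) : Prop := ∃ (c : G) (H : AddSubgroup G), ∀ y, y ∈ C ↔ y - c ∈ H

/-- the indicator function -/
def ind (C : Finset G) : G → ℝ := fun y => if y ∈ C then 1 else 0

open Classical in
/-- a point of a coset -/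
noncomputable def ctr (C : Finset G) : G := if h : IsCoset C then h.choose else 0

open Classical in
/-- the direction of a coset -/
noncomputable def dir (C : Finset G) : AddSubgroup G :=
  if h : IsCoset C then h.choose_spec.choose else ⊥

theorem mem_iff {C : Finset G} (h : IsCoset C) (y : G) : y ∈ C ↔ y - ctr C ∈ dir C := by
  unfold ctr dir
  rw [dif_pos h, dif_pos h]
  exact h.choose_spec.choose_spec y

theorem ctr_mem {C : Finset G} (h : IsCoset C) : ctr C ∈ C := by
  rw [mem_iff h, sub_self]; exact (dir C).zero_mem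

open Classical in
theorem card_sub_mem (H : AddSubgroup G) (c : G) :
    (Finset.univ.filter fun y => y - c ∈ H).card = Nat.card H := by
  rw [Nat.card_eq_fintype_card, Fintype.card_subtype]
  apply Finset.card_nbij' (fun y => y - c) (fun y => y + c)
  · intro y hy
    simpa using hy
  · intro y hy
    simpa using hy
  · intro y _; simp
  · intro y _; simp

theorem card_coset {C : Finset G} (h : IsCoset C) : C.card = Nat.card (dir C) := by
  classical
  rw [← card_sub_mem (dir C) (ctr C)]
  congr 1
  ext y
  rw [mem_iff h]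
  simp

/-- evaluation -/
noncomputable def evL (y : G) : (G → ℝ) →ₗ[ℝ] ℂ where
  toFun f := (f y : ℂ)
  map_add' f g := by simp
  map_smul' a f := by simp

/-- Fourier coefficient -/
noncomputable def foL (χ : AddChar G ℂ) : (G → ℝ) →ₗ[ℝ] ℂ where
  toFun f := ∑ y, (f y : ℂ) * χ y
  map_add' f g := by simp [add_mul, Finset.sum_add_distrib]
  map_smul' a f := by simp [Finset.mul_sum, mul_assoc]

theorem evL_ne (C : Finset G) (y : G) : evL y (ind C) ≠ 0 ↔ y ∈ C := by
  show ((ind C y : ℝ) : ℂ) ≠ 0 ↔ y ∈ C
  unfold ind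
  by_cases h : y ∈ C <;> simp [h]

theorem foL_ne {C : Finset G} (h : IsCoset C) (χ : AddChar G ℂ) :
    foL χ (ind C) ≠ 0 ↔ χ ∈ ann (dir C) := by
  classical
  have h1 : foL χ (ind C) = ∑ y ∈ Finset.univ.filter (fun y => y - ctr C ∈ dir C), χ y := by
    show ∑ y, ((ind C y : ℝ) : ℂ) * χ y = _
    rw [Finset.sum_filter]
    apply Finset.sum_congr rfl
    intro y _
    unfold ind
    by_cases hy : y ∈ C
    · rw [if_pos hy, if_pos ((mem_iff h y).1 hy)]; simp
    · rw [if_neg hy, if_neg fun h' => hy ((mem_iff h y).2 h')]; simp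
  rw [h1, sum_coset]
  split_ifs with hχ
  · simp only [hχ, iff_true]
    apply mul_ne_zero
    · rw [card_sub_mem]
      exact_mod_cast (Nat.card_pos (α := dir C)).ne'
    · intro h0
      have := AddChar.norm_apply χ (ctr C)
      rw [h0, norm_zero] at this
      norm_num at this
  · simp [hχ]

theorem rk_le_card (v : Finset G → (G → ℝ)) (S : Finset (Finset G)) : rk v S ≤ S.card := by
  classical
  have := finrank_span_finset_le_card (R := ℝ) (S.image v)
  rw [Finset.coe_image] at this
  exact this.trans Finset.card_image_le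

/-- **Small cosets.** -/
theorem small (S : Finset (Finset G)) (hS : ∀ C ∈ S, IsCoset C) (s R : ℕ)
    (hs : ∀ C ∈ S, C.card ≤ s) (hR : rk ind S ≤ R) : S.card ≤ (R * s) ^ (Nat.log 2 s + 1) := by
  classical
  obtain ⟨L, hLS, hL, hcov⟩ := greedy ind evL (fun C : Finset G => (C : Set G)) S
    (fun C _ y => evL_ne C y)
  set Ω := L.biUnion id with hΩ
  have hΩc : Ω.card ≤ R * s := by
    refine (card_biUnion_le_card_mul L id s fun C hC => hs C (hLS hC)).trans ?_
    exact Nat.mul_le_mul_right s (hL.trans ((rk_mono ind hLS).trans hR))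
  have hCΩ : ∀ C ∈ S, ∀ y ∈ C, y ∈ Ω := by
    intro C hC y hy
    obtain ⟨D, hD, hyD⟩ := hcov C hC y hy
    exact mem_biUnion.2 ⟨D, hD, hyD⟩
  set k := Nat.log 2 s with hk
  let Φ : (Fin (k + 1) → G) → Finset G := fun p => Finset.univ.filter fun y =>
    y - p 0 ∈ AddSubgroup.closure (Set.range fun i : Fin k => p i.succ - p 0)
  have hsub : S ⊆ (Fintype.piFinset fun _ : Fin (k + 1) => Ω).image Φ := by
    intro C hC
    have hc := hS C hC
    obtain ⟨f, hf, hcl⟩ := addgens' (dir C) (s := s) (by rw [← card_coset hc]; exact hs C hC)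
    rw [mem_image]
    refine ⟨Fin.cons (ctr C) fun i => f i + ctr C, ?_, ?_⟩
    · rw [Fintype.mem_piFinset]
      intro i
      refine Fin.cases ?_ ?_ i
      · exact hCΩ C hC _ (ctr_mem hc)
      · intro i
        apply hCΩ C hC
        rw [mem_iff hc]
        simpa using hf i
    · ext y
      simp only [Φ, mem_filter, mem_univ, true_and, Fin.cons_zero, Fin.cons_succ,
        add_sub_cancel_right]
      rw [mem_iff hc]
      rw [hcl]
  calc S.card ≤ ((Fintype.piFinset fun _ : Fin (k + 1) => Ω).image Φ).card := card_le_card hsub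
    _ ≤ (Fintype.piFinset fun _ : Fin (k + 1) => Ω).card := card_image_le
    _ = Ω.card ^ (k + 1) := by rw [Fintype.card_piFinset_const]
    _ ≤ (R * s) ^ (k + 1) := Nat.pow_le_pow_left hΩc _

/-- **Cosets of small index.** -/
theorem large (S : Finset (Finset G)) (hS : ∀ C ∈ S, IsCoset C) (s R : ℕ)
    (hs : ∀ C ∈ S, Nat.card G ≤ s * C.card) (hR : rk ind S ≤ R) :
    S.card ≤ s * (R * s) ^ (Nat.log 2 s) := by
  classical
  obtain ⟨L, hLS, hL, hcov⟩ := greedy ind foL (fun C : Finset G => (ann (dir C) : Set (AddChar G ℂ))) S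
    (fun C hC χ => foL_ne (hS C hC) χ)
  have hann : ∀ C ∈ S, Nat.card (ann (dir C)) ≤ s := by
    intro C hC
    have h1 := card_ann (dir C)
    have h2 := hs C hC
    rw [card_coset (hS C hC), ← h1] at h2
    exact Nat.le_of_mul_le_mul_right h2 Nat.card_pos
  set Ω := L.biUnion fun C => Finset.univ.filter fun χ => χ ∈ ann (dir C) with hΩ
  have hΩc : Ω.card ≤ R * s := by
    refine (card_biUnion_le_card_mul L _ s fun C hC => ?_).trans ?_
    · rw [← Fintype.card_subtype, ← Nat.card_eq_fintype_card]
      exact hann C (hLS hC)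
    · exact Nat.mul_le_mul_right s (hL.trans ((rk_mono ind hLS).trans hR))
  have hCΩ : ∀ C ∈ S, ∀ χ ∈ ann (dir C), χ ∈ Ω := by
    intro C hC χ hχ
    obtain ⟨D, hD, hχD⟩ := hcov C hC χ hχ
    exact mem_biUnion.2 ⟨D, hD, by simpa using hχD⟩
  set k := Nat.log 2 s with hk
  let Ψ : (Fin k → AddChar G ℂ) → AddSubgroup G := fun p =>
    if h : ∃ H : AddSubgroup G, ann H = Subgroup.closure (Set.range p) then h.choose else ⊥
  have himg : (S.image dir).card ≤ (R * s) ^ k := by
    have hsub : S.image dir ⊆ (Fintype.piFinset fun _ : Fin k => Ω).image Ψ := by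
      intro H hH
      obtain ⟨C, hC, rfl⟩ := mem_image.1 hH
      obtain ⟨f, hf, hcl⟩ := gens' (ann (dir C)) (hann C hC)
      rw [mem_image]
      refine ⟨f, ?_, ?_⟩
      · rw [Fintype.mem_piFinset]
        intro i
        exact hCΩ C hC _ (hf i)
      · have hex : ∃ H : AddSubgroup G, ann H = Subgroup.closure (Set.range f) := ⟨dir C, hcl.symm⟩
        simp only [Ψ]
        rw [dif_pos hex]
        apply ann_injective
        rw [hex.choose_spec, hcl]
    calc (S.image dir).card ≤ ((Fintype.piFinset fun _ : Fin k => Ω).image Ψ).card :=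
          card_le_card hsub
      _ ≤ (Fintype.piFinset fun _ : Fin k => Ω).card := card_image_le
      _ = Ω.card ^ k := by rw [Fintype.card_piFinset_const]
      _ ≤ (R * s) ^ k := Nat.pow_le_pow_left hΩc _
  have hfib : ∀ H ∈ S.image dir, (S.filter fun C => dir C = H).card ≤ s := by
    intro H hH
    obtain ⟨C₀, hC₀, hH₀⟩ := mem_image.1 hH
    have h1 : Fintype.card (G ⧸ H) ≤ s := by
      have h2 := AddSubgroup.card_eq_card_quotient_mul_card_addSubgroup H
      have h3 := hs C₀ hC₀
      rw [card_coset (hS C₀ hC₀), hH₀, h2] at h3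
      rw [← Nat.card_eq_fintype_card]
      exact Nat.le_of_mul_le_mul_right h3 Nat.card_pos
    refine le_trans ?_ h1
    rw [← Finset.card_univ]
    apply Finset.card_le_card_of_injOn (fun C => (QuotientAddGroup.mk (ctr C) : G ⧸ H))
    · intro C _; exact mem_coe.2 (mem_univ _)
    · intro C hC D hD hCD
      rw [mem_coe, mem_filter] at hC hD
      simp only at hCD
      rw [QuotientAddGroup.eq] at hCD
      ext y
      rw [mem_iff (hS C hC.1), mem_iff (hS D hD.1), hC.2, hD.2]
      constructor
      · intro h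
        have : y - ctr D = (y - ctr C) - (-ctr C + ctr D) := by abel
        rw [this]; exact H.sub_mem h hCD
      · intro h
        have : y - ctr C = (y - ctr D) + (-ctr C + ctr D) := by abel
        rw [this]; exact H.add_mem h hCD
  calc S.card ≤ s * (S.image dir).card := Finset.card_le_mul_card_image S s hfib
    _ ≤ s * (R * s) ^ k := Nat.mul_le_mul_left s himg

end Pool.Agent.V11160.LR
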