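import Pool.Agent.V11160.LR.Cosets

/-! Counting cosets whose indicator functions span a space of small dimension: main theorem. -/

set_option autoImplicit false

open Finset Module

namespace Pool.Agent.V11160.LR

variable {G : Type} [AddCommGroup G] [Fintype G] [DecidableEq G]

/-- the rank does not increase under a linear map, up to nonzero factors -/
theorem rk_image {G' : Type} [AddCommGroup G'] [Fintype G'] [DecidableEq G']
    (S : Finset (Finset G)) (τ : Finset G → Finset G') (A : (G → ℝ) →ₗ[ℝ] (G' → ℝ))
    (h : ∀ C ∈ S, ∃ a : ℝ, ind (τ C) = a • A (ind C)) : rk ind (S.image τ) ≤ rk ind S := by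
  have h1 : Submodule.span ℝ (ind '' ((S.image τ : Finset (Finset G')) : Set (Finset G'))) ≤
      (Submodule.span ℝ (ind '' (S : Set (Finset G)))).map A := by
    rw [Submodule.span_le]
    rintro _ ⟨C', hC', rfl⟩
    rw [mem_coe, mem_image] at hC'
    obtain ⟨C, hC, rfl⟩ := hC'
    obtain ⟨a, ha⟩ := h C hC
    rw [ha]
    apply Submodule.smul_mem
    exact Submodule.mem_map_of_mem (Submodule.subset_span ⟨C, hC, rfl⟩)
  exact (Submodule.finrank_mono h1).trans (Submodule.finrank_map_le _ _)

/-- cosets close to the subgroup `H` -/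
theorem near (H : AddSubgroup G) (S : Finset (Finset G)) (hS : ∀ C ∈ S, IsCoset C) (s t R : ℕ)
    (hs : ∀ C ∈ S, Nat.card (dir C ⊔ H : AddSubgroup G) ≤ s * C.card)
    (ht : ∀ C ∈ S, Nat.card (dir C ⊔ H : AddSubgroup G) ≤ t * Nat.card H)
    (hR : rk ind S ≤ R) :
    S.card ≤ (s * (R * s) ^ (Nat.log 2 s)) * (R * t) ^ (Nat.log 2 t + 1) := by
  classical
  let _ : Fintype (G ⧸ H) := Fintype.ofFinite _
  set mk : G → G ⧸ H := QuotientAddGroup.mk with hmk
  have hmk_eq : ∀ a b : G, mk a = mk b ↔ a - b ∈ H := by
    intro a b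
    rw [hmk, eq_comm, QuotientAddGroup.eq]
    have : -b + a = a - b := by abel
    rw [this]
  have hmk_sub : ∀ a b : G, mk a - mk b = mk (a - b) := fun a b => rfl
  set π : Finset G → Finset (G ⧸ H) := fun C => C.image mk with hπ
  have hπmem : ∀ C ∈ S, ∀ y, mk y ∈ π C ↔ y - ctr C ∈ (dir C ⊔ H : AddSubgroup G) := by
    intro C hC y
    rw [hπ]
    simp only
    rw [mem_image]
    constructor
    · rintro ⟨y', hy', h⟩
      rw [mem_iff (hS C hC)] at hy'
      rw [hmk_eq] at h
      have : y - ctr C = (y' - ctr C) - (y' - y) := by abel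
      rw [this]
      exact AddSubgroup.sub_mem _ (AddSubgroup.mem_sup_left hy') (AddSubgroup.mem_sup_right h)
    · intro h
      obtain ⟨a, ha, b, hb, hab⟩ := AddSubgroup.mem_sup.1 h
      refine ⟨a + ctr C, ?_, ?_⟩
      · rw [mem_iff (hS C hC)]; simpa using ha
      · rw [hmk_eq]
        have : a + ctr C - y = -b := by
          have : y = ctr C + (a + b) := by rw [hab]; abel
          rw [this]; abel
        rw [this]; exact H.neg_mem hb
  -- the images in the quotient
  have h1 : ∀ D ∈ S.image π, IsCoset D := by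
    intro D hD
    obtain ⟨C, hC, rfl⟩ := mem_image.1 hD
    refine ⟨mk (ctr C), (dir C).map (QuotientAddGroup.mk' H), ?_⟩
    intro q
    obtain ⟨y, rfl⟩ := QuotientAddGroup.mk_surjective q
    show mk y ∈ π C ↔ mk y - mk (ctr C) ∈ _
    rw [hπmem C hC, hmk_sub, AddSubgroup.mem_map]
    constructor
    · intro h
      obtain ⟨a, ha, b, hb, hab⟩ := AddSubgroup.mem_sup.1 h
      refine ⟨a, ha, ?_⟩
      show mk a = mk (y - ctr C)
      rw [hmk_eq, ← hab]
      have : a - (a + b) = -b := by abel
      rw [this]; exact H.neg_mem hb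
    · rintro ⟨a, ha, h⟩
      have h' : mk a = mk (y - ctr C) := h
      rw [hmk_eq] at h'
      have : y - ctr C = a - (a - (y - ctr C)) := by abel
      rw [this]
      exact AddSubgroup.sub_mem _ (AddSubgroup.mem_sup_left ha) (AddSubgroup.mem_sup_right h')
  have hfibq : ∀ y₀ : G, (Finset.univ.filter fun y => mk y = mk y₀).card = Nat.card H := by
    intro y₀
    rw [← card_sub_mem H y₀]
    congr 1
    ext y
    simp [hmk_eq]
  have h2 : ∀ D ∈ S.image π, D.card ≤ t := by
    intro D hD
    obtain ⟨C, hC, rfl⟩ := mem_image.1 hD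
    have h3 : (Finset.univ.filter fun y => mk y ∈ π C).card = (π C).card * Nat.card H := by
      rw [Finset.card_eq_sum_card_fiberwise (f := mk) (t := π C)]
      · rw [Finset.sum_congr rfl (g := fun _ => Nat.card H), Finset.sum_const, smul_eq_mul]
        intro q hq
        obtain ⟨y₀, rfl⟩ := QuotientAddGroup.mk_surjective q
        rw [← hfibq y₀, Finset.filter_filter]
        congr 1
        ext y
        simp only [mem_filter, mem_univ, true_and]
        constructor
        · rintro ⟨_, h⟩; exact h
        · intro h; exact ⟨by rw [h]; exact hq, h⟩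
      · intro y hy
        simpa using hy
    have h4 : (Finset.univ.filter fun y => mk y ∈ π C).card =
        Nat.card (dir C ⊔ H : AddSubgroup G) := by
      rw [← card_sub_mem (dir C ⊔ H) (ctr C)]
      congr 1
      ext y
      simp [hπmem C hC]
    have h5 := ht C hC
    rw [← h4, h3] at h5
    exact Nat.le_of_mul_le_mul_right h5 Nat.card_pos
  -- the rank of the images
  let A : (G → ℝ) →ₗ[ℝ] (G ⧸ H → ℝ) :=
    { toFun := fun f q => ∑ y ∈ Finset.univ.filter (fun y => mk y = q), f y
      map_add' := by intro f g; funext q; simp [Finset.sum_add_distrib]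
      map_smul' := by intro a f; funext q; simp [Finset.mul_sum] }
  have hA : ∀ C ∈ S, ∃ a : ℝ, ind (π C) = a • A (ind C) := by
    intro C hC
    have hpos : (0 : ℝ) < Nat.card (dir C ⊓ H : AddSubgroup G) := by exact_mod_cast Nat.card_pos
    refine ⟨(Nat.card (dir C ⊓ H : AddSubgroup G) : ℝ)⁻¹, ?_⟩
    funext q
    obtain ⟨y₀, rfl⟩ := QuotientAddGroup.mk_surjective q
    show ind (π C) (mk y₀) = (Nat.card (dir C ⊓ H : AddSubgroup G) : ℝ)⁻¹ *
      ∑ y ∈ Finset.univ.filter (fun y => mk y = mk y₀), ind C y
    have h3 : ∑ y ∈ Finset.univ.filter (fun y => mk y = mk y₀), ind C y =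
        ((Finset.univ.filter fun y => mk y = mk y₀ ∧ y ∈ C).card : ℝ) := by
      unfold ind
      rw [Finset.sum_ite, Finset.sum_const_zero, add_zero, Finset.sum_const, Finset.filter_filter]
      simp
    rw [h3]
    by_cases hq : mk y₀ ∈ π C
    · rw [ind, if_pos hq]
      obtain ⟨y₁, hy₁, h4⟩ := mem_image.1 hq
      have h5 : (Finset.univ.filter fun y => mk y = mk y₀ ∧ y ∈ C) =
          Finset.univ.filter fun y => y - y₁ ∈ (dir C ⊓ H : AddSubgroup G) := by
        ext y
        simp only [mem_filter, mem_univ, true_and]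
        rw [← h4, hmk_eq, AddSubgroup.mem_inf, mem_iff (hS C hC)]
        rw [mem_iff (hS C hC)] at hy₁
        constructor
        · rintro ⟨h6, h7⟩
          refine ⟨?_, h6⟩
          have : y - y₁ = (y - ctr C) - (y₁ - ctr C) := by abel
          rw [this]; exact AddSubgroup.sub_mem _ h7 hy₁
        · rintro ⟨h6, h7⟩
          refine ⟨h7, ?_⟩
          have : y - ctr C = (y - y₁) + (y₁ - ctr C) := by abel
          rw [this]; exact AddSubgroup.add_mem _ h6 hy₁
      rw [h5, card_sub_mem, inv_mul_cancel₀ hpos.ne']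
    · rw [ind, if_neg hq]
      have h5 : (Finset.univ.filter fun y => mk y = mk y₀ ∧ y ∈ C) = ∅ := by
        rw [Finset.filter_eq_empty_iff]
        rintro y _ ⟨h6, h7⟩
        apply hq
        rw [← h6]
        exact mem_image_of_mem _ h7
      rw [h5]
      simp
  have h3 : rk ind (S.image π) ≤ R := (rk_image S π A hA).trans hR
  have himg : (S.image π).card ≤ (R * t) ^ (Nat.log 2 t + 1) := small _ h1 t R h2 h3
  -- the fibres
  have hfib : ∀ D ∈ S.image π, (S.filter fun C => π C = D).card ≤ s * (R * s) ^ (Nat.log 2 s) := by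
    intro D hD
    obtain ⟨C₀, hC₀, hD₀⟩ := mem_image.1 hD
    set S₀ := S.filter fun C => π C = D with hS₀
    set K : AddSubgroup G := dir C₀ ⊔ H with hK
    have hmem : ∀ C ∈ S₀, ∀ y, y - ctr C ∈ (dir C ⊔ H : AddSubgroup G) ↔ y - ctr C₀ ∈ K := by
      intro C hC y
      rw [hS₀, mem_filter] at hC
      rw [← hπmem C hC.1, hK, ← hπmem C₀ hC₀, hC.2, hD₀]
    have hcK : ∀ C ∈ S₀, ctr C - ctr C₀ ∈ K := by
      intro C hC
      rw [← hmem C hC, sub_self]
      exact AddSubgroup.zero_mem _
    have hdir : ∀ C ∈ S₀, (dir C ⊔ H : AddSubgroup G) = K := by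
      intro C hC
      ext h
      have h4 := hmem C hC (h + ctr C)
      rw [add_sub_cancel_right] at h4
      rw [h4]
      have : h + ctr C - ctr C₀ = h + (ctr C - ctr C₀) := by abel
      rw [this]
      exact K.add_mem_cancel_right (hcK C hC)
    have hCK : ∀ C ∈ S₀, ∀ y ∈ C, y - ctr C₀ ∈ K := by
      intro C hC y hy
      rw [← hmem C hC]
      rw [hS₀, mem_filter] at hC
      exact AddSubgroup.mem_sup_left ((mem_iff (hS C hC.1) y).1 hy)
    let τ : Finset G → Finset K := fun C => Finset.univ.filter fun k : K => (k : G) + ctr C₀ ∈ C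
    have hτcard : ∀ C ∈ S₀, (τ C).card = C.card := by
      intro C hC
      apply Finset.card_bij (fun (k : K) _ => (k : G) + ctr C₀)
      · intro k hk
        simpa [τ] using hk
      · intro k _ k' _ h
        exact Subtype.ext (add_right_cancel h)
      · intro y hy
        refine ⟨⟨y - ctr C₀, hCK C hC y hy⟩, ?_, ?_⟩
        · simp [τ, hy]
        · simp
    have hτinj : Set.InjOn τ S₀ := by
      intro C hC C' hC' h
      ext y
      constructor
      · intro hy
        have h4 : (⟨y - ctr C₀, hCK C hC y hy⟩ : K) ∈ τ C := by simp [τ, hy]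
        rw [h] at h4
        simpa [τ] using h4
      · intro hy
        have h4 : (⟨y - ctr C₀, hCK C' hC' y hy⟩ : K) ∈ τ C' := by simp [τ, hy]
        rw [← h] at h4
        simpa [τ] using h4
    rw [← Finset.card_image_of_injOn hτinj]
    apply large
    · intro D' hD'
      obtain ⟨C, hC, rfl⟩ := mem_image.1 hD'
      refine ⟨⟨ctr C - ctr C₀, hcK C hC⟩, (dir C).addSubgroupOf K, ?_⟩
      intro k
      rw [AddSubgroup.mem_addSubgroupOf]
      simp only [τ, mem_filter, mem_univ, true_and]
      have hC' := hC
      rw [hS₀, mem_filter] at hC'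
      rw [mem_iff (hS C hC'.1)]
      have : (k : G) + ctr C₀ - ctr C = (k : G) - (ctr C - ctr C₀) := by abel
      rw [this]
      exact Iff.rfl
    · intro D' hD'
      obtain ⟨C, hC, rfl⟩ := mem_image.1 hD'
      rw [hτcard C hC]
      have hC' := hC
      rw [hS₀, mem_filter] at hC'
      have := hs C hC'.1
      rw [hdir C hC] at this
      exact this
    · refine le_trans (rk_image S₀ τ (LinearMap.funLeft ℝ ℝ fun k : K => (k : G) + ctr C₀) ?_) ?_
      · intro C hC
        refine ⟨1, ?_⟩
        rw [one_smul]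
        funext k
        simp [ind, τ, LinearMap.funLeft_apply]
      · exact (rk_mono ind (Finset.filter_subset _ _)).trans hR
  exact (Finset.card_le_mul_card_image S _ hfib).trans (Nat.mul_le_mul_left _ himg)

/-- the scale of a set -/
def scale (C : Finset G) : ℕ := Nat.log 2 C.card

theorem sum_pow_lt (T : Finset ℕ) (a : ℕ) (hT : ∀ b ∈ T, b + 2 ≤ a) :
    ∑ b ∈ T, 2 ^ (b + 1) < 2 ^ a := by
  have h1 : ∑ b ∈ T, 2 ^ (b + 1) ≤ ∑ b ∈ Finset.range (a - 1), 2 ^ (b + 1) := by
    apply Finset.sum_le_sum_of_subset
    intro b hb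
    have := hT b hb
    rw [Finset.mem_range]
    omega
  have h2 : ∀ n : ℕ, ∑ b ∈ Finset.range n, 2 ^ (b + 1) + 2 = 2 ^ (n + 1) := by
    intro n
    induction n with
    | zero => simp
    | succ n ih =>
      rw [Finset.sum_range_succ, pow_succ 2 (n + 1)]
      omega
  rcases Nat.eq_zero_or_pos a with ha | ha
  · have hT' : T = ∅ := by
      rw [Finset.eq_empty_iff_forall_notMem]
      intro b hb
      have := hT b hb
      omega
    rw [hT', ha]
    simp
  · have h3 := h2 (a - 1)
    rw [show a - 1 + 1 = a by omega] at h3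
    omega

/-- the number of different scales -/
theorem scales (S : Finset (Finset G)) (hne : ∀ C ∈ S, C.Nonempty) (R : ℕ) (hR : rk ind S ≤ R) :
    (S.image scale).card ≤ 2 * R := by
  classical
  have key : ∀ ε : ℕ, ((S.image scale).filter fun a => a % 2 = ε).card ≤ R := by
    intro ε
    set T := (S.image scale).filter fun a => a % 2 = ε with hT
    have hex : ∀ a ∈ T, ∃ C ∈ S, scale C = a := by
      intro a ha
      rw [hT, mem_filter, mem_image] at ha
      exact ha.1
    let rep : ℕ → Finset G := fun a => if h : ∃ C ∈ S, scale C = a then h.choose else ∅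
    have hrep : ∀ a ∈ T, rep a ∈ S ∧ scale (rep a) = a := by
      intro a ha
      have h := hex a ha
      simp only [rep]
      rw [dif_pos h]
      exact h.choose_spec
    have h1 := triangular ind rep T (by
      intro a ha
      have h2 : ∑ b ∈ T.filter (· < a), (rep b).card < (rep a).card := by
        have h3 : ∀ b ∈ T.filter (· < a), (rep b).card ≤ 2 ^ (b + 1) := by
          intro b hb
          rw [mem_filter] at hb
          have h4 := (hrep b hb.1).2
          unfold scale at h4
          have h5 := Nat.lt_pow_succ_log_self (b := 2) (by norm_num) (rep b).card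
          rw [h4] at h5
          exact h5.le
        have h4 : 2 ^ a ≤ (rep a).card := by
          have h5 := (hrep a ha).2
          unfold scale at h5
          have h6 := Nat.pow_log_le_self 2 (x := (rep a).card)
            (Finset.card_pos.2 (hne _ (hrep a ha).1)).ne'
          rw [h5] at h6
          exact h6
        refine lt_of_le_of_lt (Finset.sum_le_sum h3) (lt_of_lt_of_le (sum_pow_lt _ a ?_) h4)
        intro b hb
        rw [mem_filter, hT, mem_filter] at hb
        rw [hT, mem_filter] at ha
        omega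
      have h3 : ((T.filter (· < a)).biUnion rep).card < (rep a).card :=
        lt_of_le_of_lt Finset.card_biUnion_le h2
      obtain ⟨y, hy, hy'⟩ := Finset.exists_mem_notMem_of_card_lt_card h3
      refine ⟨evL y, (evL_ne _ _).2 hy, ?_⟩
      intro b hb hba
      by_contra hcon
      apply hy'
      rw [mem_biUnion]
      exact ⟨b, mem_filter.2 ⟨hb, hba⟩, (evL_ne _ _).1 hcon⟩)
    refine h1.trans ((rk_mono ind ?_).trans hR)
    intro C hC
    obtain ⟨a, ha, rfl⟩ := mem_image.1 hC
    exact (hrep a ha).1
  have hsplit : (S.image scale).card ≤ ((S.image scale).filter fun a => a % 2 = 0).card +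
      ((S.image scale).filter fun a => a % 2 = 1).card := by
    refine le_trans (card_le_card ?_) (card_union_le _ _)
    intro a ha
    rw [mem_union, mem_filter, mem_filter]
    rcases Nat.mod_two_eq_zero_or_one a with h | h
    · exact Or.inl ⟨ha, h⟩
    · exact Or.inr ⟨ha, h⟩
  have := key 0
  have := key 1
  omega

/-- **The number of cosets whose indicator functions span a space of dimension at most `R`.** -/
theorem count (S : Finset (Finset G)) (hS : ∀ C ∈ S, IsCoset C) (R : ℕ) (hR : rk ind S ≤ R) :
    S.card ≤ (R * ((R * (R * R) ^ (Nat.log 2 R)) * (R * (2 * R)) ^ (Nat.log 2 (2 * R) + 1))) *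
      (2 * R) := by
  classical
  set B := (R * (R * R) ^ (Nat.log 2 R)) * (R * (2 * R)) ^ (Nat.log 2 (2 * R) + 1) with hB
  have hne : ∀ C ∈ S, C.Nonempty := fun C hC => ⟨ctr C, ctr_mem (hS C hC)⟩
  have hfib : ∀ a ∈ S.image scale, (S.filter fun C => scale C = a).card ≤ R * B := by
    intro a _
    set Sa := S.filter fun C => scale C = a with hSa
    have hSaS : Sa ⊆ S := Finset.filter_subset _ _
    obtain ⟨L, hLS, hL, hcov⟩ := greedy ind foL
      (fun C : Finset G => (ann (dir C) : Set (AddChar G ℂ))) Sa
      (fun C hC χ => foL_ne (hS C (hSaS hC)) χ)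
    have hLR : L.card ≤ R := hL.trans ((rk_mono ind (hLS.trans hSaS)).trans hR)
    have hclose : ∀ C ∈ Sa, ∃ D ∈ L, Nat.card (dir C ⊔ dir D : AddSubgroup G) ≤ R * C.card := by
      intro C hC
      by_contra hcon
      push Not at hcon
      have h1 : Nat.card (ann (dir C)) ≤
          ∑ D ∈ L, Nat.card (ann (dir C ⊔ dir D : AddSubgroup G)) := by
        have h2 : (Finset.univ.filter fun χ => χ ∈ ann (dir C)) ⊆
            L.biUnion fun D => Finset.univ.filter fun χ => χ ∈ ann (dir C ⊔ dir D) := by
          intro χ hχ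
          rw [mem_filter] at hχ
          obtain ⟨D, hD, hχD⟩ := hcov C hC χ hχ.2
          rw [mem_biUnion]
          refine ⟨D, hD, ?_⟩
          rw [mem_filter, ann_sup]
          exact ⟨mem_univ _, Subgroup.mem_inf.2 ⟨hχ.2, hχD⟩⟩
        have h3 := (card_le_card h2).trans Finset.card_biUnion_le
        rw [Nat.card_eq_fintype_card, Fintype.card_subtype]
        refine h3.trans (le_of_eq ?_)
        apply Finset.sum_congr rfl
        intro D _
        rw [Nat.card_eq_fintype_card, Fintype.card_subtype]
      -- compare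
      have hposG : 0 < Nat.card G := Nat.card_pos
      have h4 : ∀ D ∈ L, R * Nat.card (ann (dir C ⊔ dir D : AddSubgroup G)) <
          Nat.card (ann (dir C)) := by
        intro D hD
        have h5 := hcon D hD
        rw [card_coset (hS C (hSaS hC))] at h5
        have h6 := card_ann (dir C ⊔ dir D : AddSubgroup G)
        have h7 := card_ann (dir C)
        have hp : 0 < Nat.card (ann (dir C ⊔ dir D : AddSubgroup G)) := Nat.card_pos
        have hq : 0 < Nat.card (dir C) := Nat.card_pos
        by_contra h8
        push Not at h8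
        have h9 : Nat.card (ann (dir C)) * Nat.card (dir C) ≤
            R * Nat.card (ann (dir C ⊔ dir D : AddSubgroup G)) * Nat.card (dir C) :=
          Nat.mul_le_mul_right _ h8
        rw [h7, ← h6] at h9
        have h10 : Nat.card (ann (dir C ⊔ dir D : AddSubgroup G)) *
            Nat.card (dir C ⊔ dir D : AddSubgroup G) ≤
            Nat.card (ann (dir C ⊔ dir D : AddSubgroup G)) * (R * Nat.card (dir C)) := by
          calc _ ≤ R * Nat.card (ann (dir C ⊔ dir D : AddSubgroup G)) * Nat.card (dir C) := h9
            _ = _ := by ring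
        exact absurd (Nat.le_of_mul_le_mul_left h10 hp) (not_le.2 h5)
      obtain ⟨D₀, hD₀⟩ : L.Nonempty := by
        rw [Finset.nonempty_iff_ne_empty]
        intro hL0
        rw [hL0, sum_empty] at h1
        have : 0 < Nat.card (ann (dir C)) := Nat.card_pos
        omega
      have hRpos : 0 < R := lt_of_lt_of_le (Finset.card_pos.2 ⟨D₀, hD₀⟩) hLR
      have h5 : R * ∑ D ∈ L, Nat.card (ann (dir C ⊔ dir D : AddSubgroup G)) <
          R * Nat.card (ann (dir C)) := by
        rw [Finset.mul_sum]
        calc ∑ D ∈ L, R * Nat.card (ann (dir C ⊔ dir D : AddSubgroup G))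
            < ∑ _D ∈ L, Nat.card (ann (dir C)) := Finset.sum_lt_sum_of_nonempty ⟨D₀, hD₀⟩ h4
          _ = L.card * Nat.card (ann (dir C)) := by rw [Finset.sum_const, smul_eq_mul]
          _ ≤ R * Nat.card (ann (dir C)) := Nat.mul_le_mul_right _ hLR
      exact absurd (Nat.mul_le_mul_left R h1) (not_le.2 h5)
    have hsub : Sa ⊆ L.biUnion fun D => Sa.filter fun C =>
        Nat.card (dir C ⊔ dir D : AddSubgroup G) ≤ R * C.card := by
      intro C hC
      obtain ⟨D, hD, h⟩ := hclose C hC
      exact mem_biUnion.2 ⟨D, hD, mem_filter.2 ⟨hC, h⟩⟩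
    refine (card_le_card hsub).trans ((card_biUnion_le_card_mul L _ B ?_).trans
      (Nat.mul_le_mul_right _ hLR))
    intro D hD
    apply near (dir D)
    · intro C hC
      exact hS C (hSaS (mem_filter.1 hC).1)
    · intro C hC
      exact (mem_filter.1 hC).2
    · intro C hC
      rw [mem_filter] at hC
      refine hC.2.trans ?_
      have hD' := hLS hD
      have hC' := hC.1
      rw [hSa, mem_filter] at hD' hC'
      have h1 := Nat.lt_pow_succ_log_self (b := 2) (by norm_num) C.card
      have h2 := Nat.pow_log_le_self 2 (x := D.card) (Finset.card_pos.2 (hne D hD'.1)).ne'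
      have h3 : Nat.log 2 C.card = a := hC'.2
      have h4 : Nat.log 2 D.card = a := hD'.2
      rw [h3, pow_succ] at h1
      rw [h4] at h2
      rw [← card_coset (hS D hD'.1)]
      calc R * C.card ≤ R * (2 * D.card) := Nat.mul_le_mul_left R (by omega)
        _ = 2 * R * D.card := by ring
    · exact (rk_mono ind ((Finset.filter_subset _ _).trans hSaS)).trans hR
  exact (Finset.card_le_mul_card_image S _ hfib).trans (Nat.mul_le_mul_left _ (scales S hne R hR))

end Pool.Agent.V11160.LR
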