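import Pool.Agent.V11160.LR.Matrix

/-! Protocols for matrices whose rows are cosets, and the universality of monotone operations. -/

set_option autoImplicit false

open Finset Module

namespace Pool.Agent.V11160.LR

open Pool.Agent.H630R2.LR (Proto)

theorem logb_succ_le (r : ℕ) : Real.logb 2 ((r + 1 : ℕ) : ℝ) ≤ Real.logb 2 r + 1 := by
  rcases Nat.eq_zero_or_pos r with rfl | h
  · simp
  · have hr : (1 : ℝ) ≤ r := by exact_mod_cast h
    have h1 : Real.logb 2 r + 1 = Real.logb 2 (r * 2) := by
      rw [Real.logb_mul (by positivity) (by norm_num), Real.logb_self_eq_one (by norm_num)]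
    rw [h1]
    apply Real.logb_le_logb_of_le (by norm_num) (by positivity)
    push_cast
    linarith

theorem logb_nonneg' (r : ℕ) : 0 ≤ Real.logb 2 (r : ℝ) := by
  rcases Nat.eq_zero_or_pos r with rfl | h
  · simp
  · exact Real.logb_nonneg (by norm_num) (by exact_mod_cast h)

/-- a numerical bound -/
theorem BB_bound (r : ℕ) :
    (2 * (BB (r + 1) : ℝ) + 2) ≤ 2 ^ (4 * (Real.logb 2 r + 2) ^ 2 + 1 : ℝ) := by
  have h1 := BB_le (R := r + 1) (by omega)
  have h2 := logb_succ_le r
  have h3 := logb_nonneg' r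
  have h4 := logb_nonneg' (r + 1)
  set ρ := Real.logb 2 (r : ℝ)
  set ρ' := Real.logb 2 ((r + 1 : ℕ) : ℝ)
  have h5 : (2 : ℝ) ^ (4 * (ρ' + 1) ^ 2 - 1 : ℝ) ≤ 2 ^ (4 * (ρ + 2) ^ 2 - 1 : ℝ) := by
    apply Real.rpow_le_rpow_of_exponent_le (by norm_num)
    nlinarith
  have h6 : (2 : ℝ) ^ (4 * (ρ + 2) ^ 2 + 1 : ℝ) = 4 * 2 ^ (4 * (ρ + 2) ^ 2 - 1 : ℝ) := by
    rw [show (4 : ℝ) * 2 ^ (4 * (ρ + 2) ^ 2 - 1 : ℝ) = 2 ^ (2 : ℝ) * 2 ^ (4 * (ρ + 2) ^ 2 - 1 : ℝ) by
      norm_num, ← Real.rpow_add (by norm_num)]
    congr 1; ring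
  have h7 : (1 : ℝ) ≤ 2 ^ (4 * (ρ + 2) ^ 2 - 1 : ℝ) := by
    apply Real.one_le_rpow (by norm_num)
    nlinarith
  rw [h6]
  have h8 := h1.trans h5
  linarith

variable {X Y : Type}

/-- a protocol in which Alice names her row -/
theorem proto_rows (F : X → Y → Bool) (T : Finset (Y → Bool)) (hT : ∀ x, F x ∈ T) (w : ℕ)
    (hw : T.card ≤ 2 ^ w) : Proto F (1 + w) := by
  classical
  refine Proto.sendX F (fun x => (⟨F x, hT x⟩ : T)) w (by simpa using hw)
    (fun q _ y => q.1 y) 1 (fun q => ?_) (fun x y => rfl)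
  exact Proto.bob _ (fun y => q.1 y) (fun v _ _ => v) 0 (fun v => Proto.const _ v fun _ _ => rfl)
    (fun _ _ => rfl)

theorem proto_of_closed [Fintype X] [AddCommGroup Y] [Fintype Y] (F : X → Y → Bool)
    (hF : ∀ x, ∃ b, Closed3 (F x) b) :
    ((Set.range F).ncard : ℝ) ≤
      2 ^ (4 * (Real.logb 2 (Pool.Agent.H630R2.LR.comm F).rank + 2) ^ 2 + 1 : ℝ) ∧
    ∃ c : ℕ, Proto F c ∧
      (c : ℝ) ≤ 4 * (Real.logb 2 (Pool.Agent.H630R2.LR.comm F).rank + 2) ^ 2 + 3 := by
  obtain ⟨T, hT, hcard⟩ := rows_card F hF ((Pool.Agent.H630R2.LR.comm F).rank + 1) le_rfl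
  set r := (Pool.Agent.H630R2.LR.comm F).rank with hr
  have h1 := BB_bound r
  have h2 : (T.card : ℝ) ≤ 2 ^ (4 * (Real.logb 2 r + 2) ^ 2 + 1 : ℝ) := by
    refine le_trans ?_ h1
    exact_mod_cast hcard
  refine ⟨?_, ?_⟩
  · refine le_trans ?_ h2
    have : (Set.range F).ncard ≤ (T : Set (Y → Bool)).ncard := by
      apply Set.ncard_le_ncard
      · rintro _ ⟨x, rfl⟩
        exact hT x
      · exact T.finite_toSet
    rw [Set.ncard_coe_finset] at this
    exact_mod_cast this
  · set w := ⌈4 * (Real.logb 2 r + 2) ^ 2 + 1⌉₊ with hw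
    refine ⟨1 + w, proto_rows F T hT w ?_, ?_⟩
    · have h3 : (T.card : ℝ) ≤ 2 ^ w := by
        have h3' : (2 : ℝ) ^ (4 * (Real.logb 2 r + 2) ^ 2 + 1 : ℝ) ≤ 2 ^ ((w : ℕ) : ℝ) :=
          Real.rpow_le_rpow_of_exponent_le one_le_two (Nat.le_ceil _)
        rw [Real.rpow_natCast] at h3'
        exact h2.trans h3'
      exact_mod_cast h3
    · have h4 := Nat.ceil_lt_add_one (a := 4 * (Real.logb 2 r + 2) ^ 2 + 1) (by positivity)
      rw [← hw] at h4
      push_cast
      linarith

/-- the `j`-th element of a chain -/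
def chain {N : ℕ} (j : Fin N) : Fin N → Bool := fun i => decide (i ≤ j)

theorem chain_injective {N : ℕ} : Function.Injective (chain : Fin N → Fin N → Bool) := by
  intro j j' h
  have h1 := congrFun h j
  have h2 := congrFun h j'
  simp [chain] at h1 h2
  exact le_antisymm h1 h2

open Classical in
/-- the function with the rows of `F` on the chain -/
noncomputable def chainFun {N : ℕ} (F : X → Fin N → Bool) (x : X) (y : Fin N → Bool) : Bool :=
  decide (∃ j, y = chain j ∧ F x j = true)

theorem chainFun_chain {N : ℕ} (F : X → Fin N → Bool) (x : X) (j : Fin N) :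
    chainFun F x (chain j) = F x j := by
  unfold chainFun
  cases h : F x j
  · rw [decide_eq_false_iff_not]
    rintro ⟨j', h1, h2⟩
    rw [← chain_injective h1, h] at h2
    exact absurd h2 (by decide)
  · rw [decide_eq_true_eq]
    exact ⟨j, rfl, h⟩

theorem chain_closed {k N : ℕ} (f : (Fin k → Bool) → Bool) (hmono : Monotone f)
    (h0 : f (fun _ => false) = false) (h1 : f (fun _ => true) = true) (j : Fin k → Fin N) :
    ∃ l, (fun i => f fun l => chain (j l) i) = chain (j l) := by
  classical
  have hk : 0 < k := by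
    rcases Nat.eq_zero_or_pos k with rfl | h
    · have : (fun _ : Fin 0 => false) = fun _ => true := by funext i; exact i.elim0
      rw [this, h1] at h0
      exact absurd h0 (by decide)
    · exact h
  set v : Fin N → Bool := fun i => f fun l => chain (j l) i with hv
  have hvmono : ∀ i i', i ≤ i' → v i' = true → v i = true := by
    intro i i' hii h
    have h2 : v i' ≤ v i := by
      apply hmono
      intro l
      simp only [chain]
      by_cases h3 : i' ≤ j l
      · simp [h3, hii.trans h3]
      · simp [h3]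
    rw [h] at h2
    cases h4 : v i
    · rw [h4] at h2; exact absurd h2 (by decide)
    · rfl
  set J := (Finset.univ : Finset (Fin k)).image j with hJ
  have hJne : J.Nonempty := ⟨j ⟨0, hk⟩, mem_image_of_mem _ (mem_univ _)⟩
  have hmin : v (J.min' hJne) = true := by
    rw [← h1]
    simp only [hv]
    congr 1
    funext l
    simp only [chain, decide_eq_true_eq]
    exact J.min'_le _ (mem_image_of_mem _ (mem_univ _))
  set A := J.filter fun i => v i = true with hA
  have hAne : A.Nonempty := ⟨J.min' hJne, mem_filter.2 ⟨J.min'_mem hJne, hmin⟩⟩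
  set m := A.max' hAne with hm
  have hmA : m ∈ A := A.max'_mem hAne
  rw [hA, mem_filter, hJ, mem_image] at hmA
  obtain ⟨⟨l, _, hl⟩, hvm⟩ := hmA
  refine ⟨l, ?_⟩
  rw [hl]
  funext i
  show v i = chain m i
  unfold chain
  by_cases hi : i ≤ m
  · rw [hvmono i m hi hvm, decide_eq_true hi]
  · rw [decide_eq_false hi]
    by_contra hcon
    have hvi : v i = true := by
      cases h : v i
      · exact absurd h hcon
      · rfl
    -- the least `j l ≥ i`
    set B := J.filter fun i' => i ≤ i' with hB
    have hBne : B.Nonempty := by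
      by_contra hne
      rw [Finset.not_nonempty_iff_eq_empty] at hne
      have : v i = false := by
        rw [← h0]
        simp only [hv]
        congr 1
        funext l'
        simp only [chain, decide_eq_false_iff_not]
        intro hle
        have h2 : j l' ∈ B := mem_filter.2 ⟨mem_image_of_mem _ (mem_univ _), hle⟩
        rw [hne] at h2
        simp at h2
      rw [hvi] at this
      exact absurd this (by decide)
    set j' := B.min' hBne with hj'
    have hj'B : j' ∈ B := B.min'_mem hBne
    rw [hB, mem_filter] at hj'B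
    have hvj' : v j' = true := by
      rw [← hvi]
      simp only [hv]
      congr 1
      funext l'
      simp only [chain]
      congr 1
      apply propext
      constructor
      · intro h2; exact hj'B.2.trans h2
      · intro h2
        exact B.min'_le _ (mem_filter.2 ⟨mem_image_of_mem _ (mem_univ _), h2⟩)
    have h3 : j' ≤ m := A.le_max' _ (mem_filter.2 ⟨hj'B.1, hvj'⟩)
    exact hi (hj'B.2.trans h3)

theorem chainFun_rank [Fintype X] {N : ℕ} (F : X → Fin N → Bool) :
    (Pool.Agent.H630R2.LR.comm (chainFun F)).rank = (Pool.Agent.H630R2.LR.comm F).rank := by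
  classical
  apply le_antisymm
  · have h1 : Pool.Agent.H630R2.LR.comm (chainFun F) = Pool.Agent.H630R2.LR.comm F *
        (Matrix.of fun (j : Fin N) (y : Fin N → Bool) => if y = chain j then (1 : ℝ) else 0) := by
      ext x y
      rw [Matrix.mul_apply]
      simp only [Pool.Agent.H630R2.LR.comm, Matrix.of_apply, mul_ite, mul_one, mul_zero]
      by_cases h : ∃ j, y = chain j
      · obtain ⟨j, rfl⟩ := h
        rw [chainFun_chain, Finset.sum_eq_single j]
        · simp
        · intro j' _ hne
          rw [if_neg]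
          intro h; exact hne (chain_injective h).symm
        · intro h; exact absurd (mem_univ _) h
      · rw [Finset.sum_eq_zero]
        · rw [if_neg]
          unfold chainFun
          rw [decide_eq_true_eq]
          rintro ⟨j, h1, _⟩
          exact h ⟨j, h1⟩
        · intro j _
          rw [if_neg]
          intro h1; exact h ⟨j, h1⟩
    rw [h1]
    exact Matrix.rank_mul_le_left _ _
  · have h1 : Pool.Agent.H630R2.LR.comm F = Pool.Agent.H630R2.LR.comm (chainFun F) *
        (Matrix.of fun (y : Fin N → Bool) (j : Fin N) => if y = chain j then (1 : ℝ) else 0) := by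
      ext x j
      rw [Matrix.mul_apply]
      simp only [Pool.Agent.H630R2.LR.comm, Matrix.of_apply, mul_ite, mul_one, mul_zero]
      rw [Finset.sum_ite_eq' Finset.univ (chain j), if_pos (mem_univ _), chainFun_chain]
    rw [h1]
    exact Matrix.rank_mul_le_left _ _

end Pool.Agent.V11160.LR
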