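import Pool.Agent.V11160.LR.Count
import Pool.Agent.H630R2.LR.M1

/-! Boolean matrices whose rows are cosets. -/

set_option autoImplicit false

open Finset Module

namespace Pool.Agent.V11160.LR

open Pool.Agent.H630R2.LR (Proto comm)

/-- the bound for the number of cosets -/
def BB (R : ℕ) : ℕ :=
  (R * ((R * (R * R) ^ (Nat.log 2 R)) * (R * (2 * R)) ^ (Nat.log 2 (2 * R) + 1))) * (2 * R)

theorem BB_le {R : ℕ} (hR : 1 ≤ R) : (BB R : ℝ) ≤ 2 ^ (4 * (Real.logb 2 R + 1) ^ 2 - 1 : ℝ) := by
  have hR0 : (0 : ℝ) < R := by exact_mod_cast hR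
  set ρ := Real.logb 2 R with hρ
  have hρ0 : 0 ≤ ρ := Real.logb_nonneg (by norm_num) (by exact_mod_cast hR)
  have hRρ : (R : ℝ) = 2 ^ ρ := by rw [hρ, Real.rpow_logb (by norm_num) (by norm_num) hR0]
  have hl : (Nat.log 2 R : ℝ) ≤ ρ := by
    rw [hρ, Real.le_logb_iff_rpow_le (by norm_num) hR0, Real.rpow_natCast]
    exact_mod_cast Nat.pow_log_le_self 2 (by omega)
  have hl2 : Nat.log 2 (2 * R) = Nat.log 2 R + 1 := by
    rw [mul_comm, Nat.log_mul_base (by norm_num) (by omega)]
  set l := Nat.log 2 R with hldef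
  have hl0 : (0 : ℝ) ≤ l := Nat.cast_nonneg _
  have h2 : (0 : ℝ) < 2 := by norm_num
  have e1 : ((R : ℝ) * R) ^ l = 2 ^ (2 * ρ * l) := by
    rw [hRρ, ← Real.rpow_add h2, ← Real.rpow_natCast, ← Real.rpow_mul h2.le]
    congr 1; ring
  have e2 : ((R : ℝ) * (2 * R)) ^ (l + 1 + 1) = 2 ^ ((2 * ρ + 1) * (l + 2)) := by
    have : (R : ℝ) * (2 * R) = 2 ^ (2 * ρ + 1) := by
      rw [Real.rpow_add h2, Real.rpow_one, two_mul ρ, Real.rpow_add h2, ← hRρ]; ring
    rw [this, ← Real.rpow_natCast, ← Real.rpow_mul h2.le]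
    congr 1; push_cast; ring
  have e3 : (BB R : ℝ) = 2 ^ (3 * ρ + 1 + 2 * ρ * l + (2 * ρ + 1) * (l + 2)) := by
    unfold BB
    rw [hl2]
    push_cast
    rw [e1, e2]
    have : (2 : ℝ) ^ (3 * ρ + 1 + 2 * ρ * l + (2 * ρ + 1) * (l + 2)) =
        2 ^ ρ * 2 ^ ρ * 2 ^ ρ * 2 ^ (1 : ℝ) * 2 ^ (2 * ρ * l) * 2 ^ ((2 * ρ + 1) * (l + 2)) := by
      rw [← Real.rpow_add h2, ← Real.rpow_add h2, ← Real.rpow_add h2, ← Real.rpow_add h2,
        ← Real.rpow_add h2]
      congr 1; ring
    rw [this, ← hRρ, Real.rpow_one]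
    ring
  rw [e3]
  apply Real.rpow_le_rpow_of_exponent_le (by norm_num)
  nlinarith [mul_nonneg hρ0 (sub_nonneg.2 hl)]

theorem BB_mono {R R' : ℕ} (h : R ≤ R') : BB R ≤ BB R' := by
  unfold BB
  have h1 : Nat.log 2 R ≤ Nat.log 2 R' := Nat.log_mono_right h
  have h2 : Nat.log 2 (2 * R) ≤ Nat.log 2 (2 * R') := Nat.log_mono_right (by omega)
  rcases Nat.eq_zero_or_pos R with h0 | h0
  · subst h0; simp
  · gcongr
    · nlinarith
    · nlinarith

variable {X Y : Type} [Fintype X] [AddCommGroup Y] [Fintype Y]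

/-- the row is closed under `u - v + w` -/
def Closed3 (ρ : Y → Bool) (b : Bool) : Prop :=
  ∀ u v w, ρ u = b → ρ v = b → ρ w = b → ρ (u - v + w) = b

theorem isCoset_of_closed [DecidableEq Y] (ρ : Y → Bool) (b : Bool) (h : Closed3 ρ b) :
    (Finset.univ.filter fun y => ρ y = b) = ∅ ∨
      IsCoset (Finset.univ.filter fun y => ρ y = b) := by
  rcases (Finset.univ.filter fun y => ρ y = b).eq_empty_or_nonempty with h0 | ⟨c, hc⟩
  · exact Or.inl h0
  · right
    rw [mem_filter] at hc
    refine ⟨c, { carrier := {h | ρ (h + c) = b}, add_mem' := ?_, zero_mem' := ?_, neg_mem' := ?_ }, ?_⟩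
    · intro x y hx hy
      have := h (x + c) c (y + c) hx hc.2 hy
      have h1 : x + c - c + (y + c) = x + y + c := by abel
      rw [h1] at this
      exact this
    · show ρ (0 + c) = b
      rw [zero_add]; exact hc.2
    · intro x hx
      have := h c (x + c) c hc.2 hx hc.2
      have h1 : c - (x + c) + c = -x + c := by abel
      rw [h1] at this
      exact this
    · intro y
      rw [mem_filter]
      show _ ↔ ρ (y - c + c) = b
      rw [sub_add_cancel]
      simp

theorem rows_card (F : X → Y → Bool) (hF : ∀ x, ∃ b, Closed3 (F x) b) (R : ℕ)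
    (hR : (comm F).rank + 1 ≤ R) :
    ∃ T : Finset (Y → Bool), (∀ x, F x ∈ T) ∧ T.card ≤ 2 * BB R + 2 := by
  classical
  refine ⟨Finset.univ.image F, fun x => mem_image_of_mem _ (mem_univ _), ?_⟩
  let T : Bool → (Y → Bool) → Finset Y := fun b ρ => Finset.univ.filter fun y => ρ y = b
  have hTinj : ∀ b, Function.Injective (T b) := by
    intro b ρ ρ' h
    funext y
    have h1 : y ∈ T b ρ ↔ y ∈ T b ρ' := by rw [h]
    simp only [T, mem_filter, mem_univ, true_and] at h1
    cases hb : b <;> cases h2 : ρ y <;> cases h3 : ρ' y <;> simp_all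
  have hrow : ∀ x, ind (T true (F x)) = (comm F) x := by
    intro x
    funext y
    simp [ind, T, Pool.Agent.H630R2.LR.comm]
  have hrow' : ∀ x, ind (T false (F x)) = (fun _ => (1 : ℝ)) - (comm F) x := by
    intro x
    funext y
    simp only [ind, T, Pool.Agent.H630R2.LR.comm, mem_filter, mem_univ, true_and, Pi.sub_apply, Matrix.of_apply]
    cases F x y <;> simp
  have hspan : (comm F).rank = finrank ℝ (Submodule.span ℝ (Set.range (comm F))) :=
    Matrix.rank_eq_finrank_span_row _
  let S : Bool → Finset (Finset Y) := fun b =>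
    ((Finset.univ.image F).filter fun ρ => IsCoset (T b ρ)).image (T b)
  have hrk : ∀ b, rk ind (S b) ≤ R := by
    intro b
    have h1 : Submodule.span ℝ (ind '' (S b : Set (Finset Y))) ≤
        Submodule.span ℝ (Set.range (comm F)) ⊔ Submodule.span ℝ {fun _ => (1 : ℝ)} := by
      rw [Submodule.span_le]
      rintro _ ⟨C, hC, rfl⟩
      simp only [S, coe_image, Set.mem_image, mem_coe, mem_filter, mem_image, mem_univ,
        true_and] at hC
      obtain ⟨ρ, ⟨⟨x, rfl⟩, _⟩, rfl⟩ := hC
      cases b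
      · rw [hrow']
        apply Submodule.sub_mem
        · exact Submodule.mem_sup_right (Submodule.mem_span_singleton_self _)
        · exact Submodule.mem_sup_left (Submodule.subset_span ⟨x, rfl⟩)
      · rw [hrow]
        exact Submodule.mem_sup_left (Submodule.subset_span ⟨x, rfl⟩)
    have h2 := Submodule.finrank_mono h1
    have h3 := Submodule.finrank_add_le_finrank_add_finrank
      (Submodule.span ℝ (Set.range (comm F))) (Submodule.span ℝ {fun _ : Y => (1 : ℝ)})
    have h4 : finrank ℝ (Submodule.span ℝ {fun _ : Y => (1 : ℝ)}) ≤ 1 := by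
      have := finrank_span_finset_le_card (R := ℝ) ({fun _ : Y => (1 : ℝ)} : Finset (Y → ℝ))
      rw [Finset.coe_singleton, Finset.card_singleton] at this
      exact this
    unfold rk
    omega
  have hcount : ∀ b, ((Finset.univ.image F).filter fun ρ => IsCoset (T b ρ)).card ≤ BB R := by
    intro b
    rw [← Finset.card_image_of_injective _ (hTinj b)]
    refine count (S b) ?_ R (hrk b)
    intro C hC
    simp only [S, mem_image, mem_filter] at hC
    obtain ⟨ρ, ⟨_, h⟩, rfl⟩ := hC
    exact h
  have hcov : Finset.univ.image F ⊆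
      (((Finset.univ.image F).filter fun ρ => IsCoset (T true ρ)) ∪
      ((Finset.univ.image F).filter fun ρ => IsCoset (T false ρ))) ∪
      {fun _ => true, fun _ => false} := by
    intro ρ hρ
    obtain ⟨x, _, rfl⟩ := mem_image.1 hρ
    obtain ⟨b, hb⟩ := hF x
    rw [mem_union, mem_union, mem_filter, mem_filter, mem_insert, mem_singleton]
    rcases isCoset_of_closed (F x) b hb with h0 | h0
    · right
      rw [Finset.filter_eq_empty_iff] at h0
      cases b
      · left
        funext y
        have := h0 (mem_univ y)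
        simpa using this
      · right
        funext y
        have := h0 (mem_univ y)
        simpa using this
    · left
      cases b
      · exact Or.inr ⟨hρ, h0⟩
      · exact Or.inl ⟨hρ, h0⟩
  refine (card_le_card hcov).trans ((card_union_le _ _).trans ?_)
  have h1 := card_union_le ((Finset.univ.image F).filter fun ρ => IsCoset (T true ρ))
    ((Finset.univ.image F).filter fun ρ => IsCoset (T false ρ))
  have h2 := hcount true
  have h3 := hcount false
  have h4 : ({fun _ => true, fun _ => false} : Finset (Y → Bool)).card ≤ 2 := card_le_two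
  omega

end Pool.Agent.V11160.LR
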