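import Pool.Agent.V11160.LR.Pieces
import Pool.Agent.V11160.CodeOps

/-! Boolean matrices whose set of rows is closed under an operation, column by column. -/

set_option autoImplicit false

open Finset Module

namespace Pool.Agent.V11160.LR

open Pool.Agent.H630R2.LR (Proto)

/-- `f` depends on at most one variable -/
def Unary {k : ℕ} (f : (Fin k → Bool) → Bool) : Prop :=
  (∃ c, ∀ v, f v = c) ∨ ∃ i c, ∀ v, f v = xor c (v i)

/-- `0` or `1` -/
def bit (b : Bool) : ℝ := if b then 1 else 0

theorem exists_diff {k : ℕ} {f : (Fin k → Bool) → Bool} (hf : ¬ Unary f) :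
    ∃ (i j : Fin k) (a : Fin k → Bool), i ≠ j ∧
      bit (f (Function.update (Function.update a i true) j true)) -
        bit (f (Function.update (Function.update a i false) j true)) ≠
      bit (f (Function.update (Function.update a i true) j false)) -
        bit (f (Function.update (Function.update a i false) j false)) := by
  classical
  by_cases haff : CO.Affine f
  · obtain ⟨c, A, hA⟩ := haff
    have h2 : 2 ≤ A.card := by
      by_contra hcon
      apply hf
      have hcard : A.card = 0 ∨ A.card = 1 := by omega
      rcases hcard with h | h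
      · left
        refine ⟨c, fun v => ?_⟩
        rw [hA, Finset.card_eq_zero.1 h]
        simp
      · right
        obtain ⟨i, rfl⟩ := Finset.card_eq_one.1 h
        refine ⟨i, c, fun v => ?_⟩
        rw [hA]
        congr 1
        rw [Finset.filter_singleton]
        cases v i <;> simp
    obtain ⟨i, hi, j, hj, hij⟩ := Finset.one_lt_card.1 h2
    refine ⟨i, j, fun _ => false, hij, ?_⟩
    have e : ∀ s t : Bool, f (Function.update (Function.update (fun _ => false) i s) j t) =
        xor c (xor s t) := by
      intro s t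
      rw [hA]
      congr 1
      have h3 : (A.filter fun l => Function.update (Function.update (fun _ => false) i s) j t l = true)
          = (if s then {i} else ∅) ∪ (if t then {j} else ∅) := by
        ext l
        rw [mem_filter, mem_union]
        by_cases hlj : l = j
        · subst hlj
          rw [Function.update_self]
          cases s <;> cases t <;> simp [hj, hij.symm]
        · rw [Function.update_of_ne hlj]
          by_cases hli : l = i
          · subst hli
            rw [Function.update_self]
            cases s <;> cases t <;> simp [hi, hij]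
          · rw [Function.update_of_ne hli]
            cases s <;> cases t <;> simp [hli, hlj]
      rw [h3]
      cases s <;> cases t <;> simp [hij]
    rw [e, e, e, e]
    cases c <;> simp [bit] <;> norm_num
  · obtain ⟨i, j, a, hij, h⟩ := CO.exists_second haff
    refine ⟨i, j, a, hij, ?_⟩
    intro heq
    cases h1 : f (Function.update (Function.update a i false) j false) <;>
      cases h2 : f (Function.update (Function.update a i false) j true) <;>
      cases h3 : f (Function.update (Function.update a i true) j false) <;>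
      cases h4 : f (Function.update (Function.update a i true) j true) <;>
      simp_all [bit]

variable {X Y : Type}

/-- normalised column -/
def ncol (F : X → Y → Bool) (x₀ : X) (y : Y) : X → Bool := fun x => xor (F x y) (F x₀ y)

theorem exists_pair (F : X → Y → Bool) (x₀ : X) {y y' : Y} (h0 : ncol F x₀ y ≠ fun _ => false)
    (hne : ncol F x₀ y ≠ ncol F x₀ y') :
    ∃ x₁ x₂, F x₁ y = true ∧ F x₂ y = false ∧ F x₁ y' = F x₂ y' := by
  by_contra hcon
  push Not at hcon
  have h1 : ∀ a b, F a y ≠ F b y → F a y' ≠ F b y' := by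
    intro a b hab
    cases ha : F a y <;> cases hb : F b y
    · rw [ha, hb] at hab; exact absurd rfl hab
    · exact fun h => hcon b a hb ha h.symm
    · exact hcon a b ha hb
    · rw [ha, hb] at hab; exact absurd rfl hab
  obtain ⟨s, hs⟩ : ∃ s, F s y ≠ F x₀ y := by
    by_contra hall
    push Not at hall
    apply h0
    funext x
    simp [ncol, hall x]
  apply hne
  funext x
  unfold ncol
  by_cases hx : F x y = F x₀ y
  · have h2 : F s y ≠ F x y := by rw [hx]; exact hs
    have h3 := h1 s x h2
    have h4 := h1 s x₀ hs
    rw [hx]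
    cases h5 : F x y' <;> cases h6 : F x₀ y' <;> cases h7 : F s y' <;> simp_all
  · have h3 := h1 x x₀ hx
    cases h5 : F x y' <;> cases h6 : F x₀ y' <;> cases h7 : F x y <;> cases h8 : F x₀ y <;> simp_all

theorem bit_update (b : Bool) (u : Bool → ℝ) : u b = u false + (u true - u false) * bit b := by
  cases b <;> simp [bit]

variable [Fintype X] [Fintype Y]

/-- the combinations of rows lie in the affine hull of the rows -/
def HullClosed {k : ℕ} (F : X → Y → Bool) (f : Y → (Fin k → Bool) → Bool) : Prop :=
  ∀ w : Fin k → X, ∃ c : X → ℝ, ∑ x, c x = 1 ∧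
    ∀ y, bit (f y fun l => F (w l) y) = ∑ x, c x * bit (F x y)

theorem indep {k : ℕ} (F : X → Y → Bool) (x₀ : X) (f : Y → (Fin k → Bool) → Bool)
    (hf : ∀ y, ¬ Unary (f y)) (hcl : HullClosed F f) (S : Finset Y)
    (h0 : ∀ y ∈ S, ncol F x₀ y ≠ fun _ => false)
    (hinj : ∀ y ∈ S, ∀ y' ∈ S, ncol F x₀ y = ncol F x₀ y' → y = y') :
    ∀ (n : ℕ) (c : Y → ℝ) (c₀ : ℝ), (∀ y, y ∉ S → c y = 0) →
      (Finset.univ.filter fun y => c y ≠ 0).card = n →
      (∀ x, ∑ y, c y * bit (F x y) = c₀) → ∀ y, c y = 0 := by
  classical
  intro n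
  induction n using Nat.strong_induction_on with
  | _ n ih =>
  intro c c₀ hS hn hrel
  by_contra hcon
  push Not at hcon
  obtain ⟨y₀, hy₀⟩ := hcon
  have hmemS : ∀ y, c y ≠ 0 → y ∈ S := fun y hy => by
    by_contra h; exact hy (hS y h)
  have hy₀S := hmemS y₀ hy₀
  -- a second column
  obtain ⟨y₁, hy₁, hne⟩ : ∃ y₁, c y₁ ≠ 0 ∧ y₀ ≠ y₁ := by
    by_contra hall
    push Not at hall
    have h1 : ∀ x, c y₀ * bit (F x y₀) = c₀ := by
      intro x
      rw [← hrel x, Finset.sum_eq_single y₀]
      · intro y _ hy
        by_cases h : c y = 0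
        · rw [h, zero_mul]
        · exact absurd (hall y h).symm hy
      · intro h; exact absurd (mem_univ _) h
    apply h0 y₀ hy₀S
    funext x
    have h2 : bit (F x y₀) = bit (F x₀ y₀) := mul_left_cancel₀ hy₀ ((h1 x).trans (h1 x₀).symm)
    unfold ncol
    cases h3 : F x y₀ <;> cases h4 : F x₀ y₀ <;> simp [h3, h4, bit] at h2 ⊢
  have hy₁S := hmemS y₁ hy₁
  obtain ⟨i, j, a, hij, hdiff⟩ := exists_diff (hf y₀)
  obtain ⟨x₁, x₂, hx₁, hx₂, hx₁₂⟩ := exists_pair F x₀ (h0 y₀ hy₀S)
    (fun h => hne (hinj y₀ hy₀S y₁ hy₁S h))
  -- differences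
  let D : Y → (Fin k → X) → ℝ := fun y w =>
    bit (f y (Function.update (fun l => F (w l) y) i true)) -
      bit (f y (Function.update (fun l => F (w l) y) i false))
  have key : ∀ w : Fin k → X, ∀ y, c y ≠ 0 → D y w = D y₀ w := by
    intro w y hy
    have h1 : ∀ x, ∑ y, c y * (bit (f y (Function.update (fun l => F (w l) y) i false)) +
        D y w * bit (F x y)) = c₀ := by
      intro x
      obtain ⟨μ, hμ1, hμ2⟩ := hcl (Function.update w i x)
      have h2 : ∀ y, bit (f y (Function.update (fun l => F (w l) y) i false)) +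
          D y w * bit (F x y) = ∑ x', μ x' * bit (F x' y) := by
        intro y
        rw [← hμ2 y]
        have h3 : (fun l => F (Function.update w i x l) y) =
            Function.update (fun l => F (w l) y) i (F x y) := by
          funext l
          by_cases hl : l = i
          · subst hl; simp
          · simp [Function.update_of_ne hl]
        rw [h3]
        exact (bit_update (F x y)
          (fun b => bit (f y (Function.update (fun l => F (w l) y) i b)))).symm
      calc _ = ∑ y, c y * ∑ x', μ x' * bit (F x' y) :=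
            Finset.sum_congr rfl fun y _ => by rw [h2]
        _ = ∑ x', μ x' * ∑ y, c y * bit (F x' y) := by
            simp only [Finset.mul_sum]
            rw [Finset.sum_comm]
            apply Finset.sum_congr rfl
            intro x' _
            apply Finset.sum_congr rfl
            intro y _
            ring
        _ = ∑ x', μ x' * c₀ := Finset.sum_congr rfl fun x' _ => by rw [hrel]
        _ = c₀ := by rw [← Finset.sum_mul, hμ1, one_mul]
    have h2 : ∀ x, ∑ y, (c y * (D y w - D y₀ w)) * bit (F x y) =
        c₀ - ∑ y, c y * bit (f y (Function.update (fun l => F (w l) y) i false)) -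
          D y₀ w * c₀ := by
      intro x
      rw [← hrel x, Finset.mul_sum]
      have h3 := h1 x
      simp only [mul_add, Finset.sum_add_distrib] at h3
      have h4 : ∑ y, (c y * (D y w - D y₀ w)) * bit (F x y) =
          ∑ y, c y * (D y w * bit (F x y)) - ∑ y, D y₀ w * (c y * bit (F x y)) := by
        rw [← Finset.sum_sub_distrib]
        apply Finset.sum_congr rfl
        intro y _
        ring
      rw [h4, hrel x]
      linarith
    have h3 : (Finset.univ.filter fun y => c y * (D y w - D y₀ w) ≠ 0).card < n := by
      rw [← hn]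
      apply Finset.card_lt_card
      rw [Finset.ssubset_iff_of_subset]
      · exact ⟨y₀, by simpa using hy₀, by simp⟩
      · intro y hy
        rw [mem_filter] at hy ⊢
        exact ⟨mem_univ _, fun h => hy.2 (by rw [h, zero_mul])⟩
    have h4 := ih _ h3 (fun y => c y * (D y w - D y₀ w)) _
      (fun y hyS => by rw [hS y hyS, zero_mul]) rfl h2 y
    have h5 := (mul_eq_zero.1 h4).resolve_left hy
    linarith
  -- contradiction
  let z : Fin k → X := fun l => if a l then x₁ else x₂
  have hz : ∀ l, F (z l) y₀ = a l := by
    intro l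
    simp only [z]
    cases h : a l <;> simp [hx₁, hx₂]
  have hrow : ∀ (x : X) (y : Y), (fun l => F (Function.update z j x l) y) =
      Function.update (fun l => F (z l) y) j (F x y) := by
    intro x y
    funext l
    by_cases hl : l = j
    · subst hl; simp
    · simp [Function.update_of_ne hl]
  have hD : ∀ x, D y₀ (Function.update z j x) =
      bit (f y₀ (Function.update (Function.update a i true) j (F x y₀))) -
        bit (f y₀ (Function.update (Function.update a i false) j (F x y₀))) := by
    intro x
    simp only [D]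
    rw [hrow, funext hz]
    rw [Function.update_comm hij.symm, Function.update_comm hij.symm]
  have hD1 : D y₁ (Function.update z j x₁) = D y₁ (Function.update z j x₂) := by
    simp only [D]
    rw [hrow, hrow, hx₁₂]
  rw [key _ y₁ hy₁, key _ y₁ hy₁, hD, hD, hx₁, hx₂] at hD1
  exact hdiff hD1

theorem card_le_rank {k : ℕ} (F : X → Y → Bool) (x₀ : X) (f : Y → (Fin k → Bool) → Bool)
    (hf : ∀ y, ¬ Unary (f y)) (hcl : HullClosed F f) (S : Finset Y)
    (h0 : ∀ y ∈ S, ncol F x₀ y ≠ fun _ => false)
    (hinj : ∀ y ∈ S, ∀ y' ∈ S, ncol F x₀ y = ncol F x₀ y' → y = y') :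
    S.card ≤ (Pool.Agent.H630R2.LR.comm F).rank := by
  classical
  have hli : LinearIndependent ℝ (fun y : S => fun x => bit (F x y)) := by
    rw [Fintype.linearIndependent_iff]
    intro g hg y
    let c : Y → ℝ := fun y => if h : y ∈ S then g ⟨y, h⟩ else 0
    have h1 : ∀ x, ∑ y, c y * bit (F x y) = 0 := by
      intro x
      have h2 := congrFun hg x
      rw [Finset.sum_apply] at h2
      simp only [Pi.smul_apply, smul_eq_mul, Pi.zero_apply] at h2
      rw [← h2, ← Finset.sum_subset (Finset.subset_univ S)]
      · rw [← Finset.sum_coe_sort S]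
        apply Finset.sum_congr rfl
        intro y _
        simp [c]
      · intro y _ hy
        simp [c, hy]
    have h2 := indep F x₀ f hf hcl S h0 hinj _ c 0 (fun y hy => by simp [c, hy]) rfl h1 y
    simpa [c] using h2
  rw [Matrix.rank_eq_finrank_span_cols]
  have h1 : finrank ℝ (Submodule.span ℝ (Set.range fun y : S => fun x => bit (F x y))) = S.card := by
    rw [finrank_span_eq_card hli, Fintype.card_coe]
  rw [← h1]
  apply Submodule.finrank_mono
  apply Submodule.span_mono
  rintro _ ⟨y, rfl⟩
  refine ⟨y, ?_⟩
  funext x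
  simp [Pool.Agent.H630R2.LR.comm, Matrix.col, bit]

theorem image_card {k : ℕ} (F : X → Y → Bool) (x₀ : X) (f : Y → (Fin k → Bool) → Bool)
    (hf : ∀ y, ¬ Unary (f y)) (hcl : HullClosed F f) :
    ∃ T : Finset (X → Bool), (∀ y, ncol F x₀ y ∈ T) ∧
      T.card ≤ (Pool.Agent.H630R2.LR.comm F).rank + 1 := by
  classical
  refine ⟨Finset.univ.image (ncol F x₀), fun y => mem_image_of_mem _ (mem_univ _), ?_⟩
  rcases isEmpty_or_nonempty Y with hY | hY
  · rw [Finset.univ_eq_empty, Finset.image_empty, Finset.card_empty]
    exact Nat.zero_le _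
  set T := (Finset.univ.image (ncol F x₀)).erase (fun _ => false) with hT
  have hrep : ∀ ν ∈ T, ∃ y, ncol F x₀ y = ν := by
    intro ν hν
    rw [hT, mem_erase, mem_image] at hν
    obtain ⟨_, y, _, h⟩ := hν
    exact ⟨y, h⟩
  choose! rep hrep using hrep
  have hinj : Set.InjOn rep T := by
    intro ν hν ν' hν' h
    rw [← hrep ν hν, ← hrep ν' hν', h]
  have h1 := card_le_rank F x₀ f hf hcl (T.image rep) (by
    intro y hy
    obtain ⟨ν, hν, rfl⟩ := mem_image.1 hy
    rw [hrep ν hν]
    rw [hT, mem_erase] at hν
    exact hν.1) (by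
    intro y hy y' hy' h
    obtain ⟨ν, hν, rfl⟩ := mem_image.1 hy
    obtain ⟨ν', hν', rfl⟩ := mem_image.1 hy'
    rw [hrep ν hν, hrep ν' hν'] at h
    rw [h])
  rw [Finset.card_image_of_injOn hinj] at h1
  have h2 : (Finset.univ.image (ncol F x₀)).card ≤ T.card + 1 := by
    rw [hT]
    have := Finset.pred_card_le_card_erase (s := Finset.univ.image (ncol F x₀))
      (a := (fun _ => false : X → Bool))
    omega
  omega

theorem proto_ops {k : ℕ} (F : X → Y → Bool) (f : Y → (Fin k → Bool) → Bool)
    (hf : ∀ y, ¬ Unary (f y)) (hcl : HullClosed F f) :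
    ∃ c : ℕ, Proto F c ∧
      (c : ℝ) ≤ Real.logb 2 ((Pool.Agent.H630R2.LR.comm F).rank + 1 : ℕ) + 3 := by
  classical
  rcases isEmpty_or_nonempty X with hX | ⟨⟨x₀⟩⟩
  · refine ⟨0, Proto.const F false fun x => (hX.false x).elim, ?_⟩
    have := logb_nonneg' ((Pool.Agent.H630R2.LR.comm F).rank + 1)
    push_cast at this ⊢
    linarith
  · obtain ⟨T, hT, hcard⟩ := image_card F x₀ f hf hcl
    set r := (Pool.Agent.H630R2.LR.comm F).rank
    refine ⟨2 + Nat.clog 2 (r + 1), ?_, ?_⟩
    · refine Proto.sendY F (fun y => (⟨ncol F x₀ y, hT y⟩ : T)) (Nat.clog 2 (r + 1)) ?_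
        (fun q x y => xor (q.1 x) (F x₀ y)) 2 ?_ ?_
      · rw [Fintype.card_coe]
        exact hcard.trans (Nat.le_pow_clog (by norm_num) _)
      · intro q
        refine Proto.bob _ (fun y => F x₀ y) (fun v x _ => xor (q.1 x) v) 1 (fun v => ?_)
          (fun _ _ => rfl)
        exact Proto.alice _ (fun x => xor (q.1 x) v) (fun u _ _ => u) 0
          (fun u => Proto.const _ u fun _ _ => rfl) (fun _ _ => rfl)
      · intro x y
        simp only [ncol]
        cases F x y <;> cases F x₀ y <;> rfl
    · have := clog_le' (r + 1)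
      push_cast at this ⊢
      linarith

end Pool.Agent.V11160.LR
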