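import Pool.Agent.V11160.LR.Final

/-! Protocols when the columns are covered by pieces parametrised by abelian groups. -/

set_option autoImplicit false

open Finset Module

namespace Pool.Agent.V11160.LR

open Pool.Agent.H630R2.LR (Proto)

theorem logb_mono' {a b : ℕ} (h : a ≤ b) : Real.logb 2 (a : ℝ) ≤ Real.logb 2 (b : ℝ) := by
  rcases Nat.eq_zero_or_pos a with rfl | ha
  · simp only [Nat.cast_zero, Real.logb_zero]
    exact logb_nonneg' b
  · exact Real.logb_le_logb_of_le (by norm_num) (by exact_mod_cast ha) (by exact_mod_cast h)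

theorem clog_le' (n : ℕ) : (Nat.clog 2 n : ℝ) ≤ Real.logb 2 n + 1 := by
  rcases Nat.lt_or_ge n 2 with h | h
  · rw [Nat.clog_of_right_le_one (by omega)]
    have := logb_nonneg' n
    push_cast
    linarith
  · have h1 := Nat.pow_pred_clog_lt_self (b := 2) (by norm_num) (x := n) (by omega)
    have h2 : ((Nat.clog 2 n).pred : ℝ) ≤ Real.logb 2 n := by
      rw [Real.le_logb_iff_rpow_le (by norm_num) (by positivity), Real.rpow_natCast]
      exact_mod_cast h1.le
    have h3 : 0 < Nat.clog 2 n := Nat.clog_pos (by norm_num) h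
    have h4 : ((Nat.clog 2 n : ℕ) : ℝ) = ((Nat.clog 2 n).pred : ℝ) + 1 := by
      have : Nat.clog 2 n = (Nat.clog 2 n).pred + 1 := (Nat.succ_pred_eq_of_pos h3).symm
      exact_mod_cast this
    rw [h4]
    linarith

variable {X Y : Type}

theorem rank_comp_le [Fintype X] [Fintype Y] {A : Type} [Fintype A] (F : X → Y → Bool) (φ : A → Y) :
    (Pool.Agent.H630R2.LR.comm fun x a => F x (φ a)).rank ≤
      (Pool.Agent.H630R2.LR.comm F).rank := by
  classical
  have h1 : Pool.Agent.H630R2.LR.comm (fun x a => F x (φ a)) = Pool.Agent.H630R2.LR.comm F *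
      (Matrix.of fun (y : Y) (a : A) => if y = φ a then (1 : ℝ) else 0) := by
    ext x a
    rw [Matrix.mul_apply]
    simp only [Pool.Agent.H630R2.LR.comm, Matrix.of_apply, mul_ite, mul_one, mul_zero]
    rw [Finset.sum_ite_eq' Finset.univ (φ a), if_pos (mem_univ _)]
  rw [h1]
  exact Matrix.rank_mul_le_left _ _

theorem proto_pieces [Fintype X] [Fintype Y] {t : ℕ} (A : Fin t → Type)
    [∀ i, AddCommGroup (A i)] [∀ i, Fintype (A i)] (φ : ∀ i, A i → Y)
    (hφ : ∀ y, ∃ i a, φ i a = y) (F : X → Y → Bool)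
    (hF : ∀ x i, ∃ b, Closed3 (fun a => F x (φ i a)) b) :
    ∃ c : ℕ, Proto F c ∧
      (c : ℝ) ≤ 4 * (Real.logb 2 (Pool.Agent.H630R2.LR.comm F).rank + 2) ^ 2 +
        Real.logb 2 t + 4 := by
  classical
  set r := (Pool.Agent.H630R2.LR.comm F).rank with hr
  set w := ⌊4 * (Real.logb 2 r + 2) ^ 2 + 3⌋₊ with hw
  have hpiece : ∀ i, Proto (fun x (a : A i) => F x (φ i a)) w := by
    intro i
    obtain ⟨_, c, hc, hcb⟩ := proto_of_closed (fun x (a : A i) => F x (φ i a)) (fun x => hF x i)
    refine hc.mono (Nat.le_floor (hcb.trans ?_))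
    have h1 := rank_comp_le F (φ i)
    rw [← hr] at h1
    have h2 := logb_mono' h1
    have h3 := logb_nonneg' (Pool.Agent.H630R2.LR.comm fun x a => F x (φ i a)).rank
    nlinarith
  choose g a hga using hφ
  let k : ∀ i, Y → A i := fun i y => if h : g y = i then h ▸ a y else 0
  have h1 : Proto F (w + Nat.clog 2 t) := by
    refine Proto.sendY F g (Nat.clog 2 t) ?_ (fun i x y => F x (φ i (k i y))) w ?_ ?_
    · rw [Fintype.card_fin]
      exact Nat.le_pow_clog (by norm_num) t
    · intro i
      exact (hpiece i).comap (fun x => x) (k i)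
    · intro x y
      have : k (g y) y = a y := by simp [k]
      simp only [this, hga]
  refine ⟨_, h1, ?_⟩
  have h2 := clog_le' t
  have h3 : (w : ℝ) ≤ 4 * (Real.logb 2 r + 2) ^ 2 + 3 := Nat.floor_le (by positivity)
  push_cast
  linarith

end Pool.Agent.V11160.LR
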